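import Mathlib

set_option autoImplicit false

open MeasureTheory

namespace Pool.Agent.Work.MP_79b32e_an

/-! ### Definitions inside a normed ring with involution (used for `B(H)`) -/

section Algebra

variable {A : Type*} [NormedRing A] [StarRing A]

/-- `Alg L`, the elements `T` with `T P = P T P` for all `P` in `L`. -/
def AlgOf (L : Set A) : Set A := {T | ∀ P ∈ L, T * P = P * T * P}

/-- `Lat S`, the projections `P` with `T P = P T P` for all `T` in `S`; in `B(H)` these are the
orthogonal projections onto the closed subspaces invariant under `S`. -/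
def LatOf (S : Set A) : Set A := {P | IsStarProjection P ∧ ∀ T ∈ S, T * P = P * T * P}

/-- The supremum of `‖P^⊥ T P‖` over `P` in `L`. -/
noncomputable def cornerSup (L : Set A) (T : A) : ℝ :=
  sSup {r : ℝ | ∃ P ∈ L, r = ‖(1 - P) * T * P‖}

/-- `S` has a distance constant: for some `K`, the distance of every `T` to `S` is at most `K`
times the supremum of `‖P^⊥ T P‖` over `P` in `Lat S`. -/
def HasDistanceConstant (S : Set A) : Prop :=
  ∃ K : ℝ, ∀ T : A, Metric.infDist T S ≤ K * cornerSup (LatOf S) T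

/-- For every `K` there is a `T` whose distance to `Alg L` is more than `K` times the supremum of
`‖P^⊥ T P‖` over `P` in `L`. -/
def ExceedsEveryConstant (L : Set A) : Prop :=
  ∀ K : ℝ, ∃ T : A, K * cornerSup L T < Metric.infDist T (AlgOf L)

/-- A lattice of mutually commuting projections containing `0` and `1`. For commuting projections
the meet is `P * Q` and the join is `P + Q - P * Q`. -/
structure IsCommutingLattice (L : Set A) : Prop where
  proj : ∀ P ∈ L, IsStarProjection P
  comm : ∀ P ∈ L, ∀ Q ∈ L, P * Q = Q * P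
  zero_mem : 0 ∈ L
  one_mem : 1 ∈ L
  inf_mem : ∀ P ∈ L, ∀ Q ∈ L, P * Q ∈ L
  sup_mem : ∀ P ∈ L, ∀ Q ∈ L, P + Q - P * Q ∈ L

end Algebra

/-! ### Definitions on a Hilbert space -/

section Hilbert

variable {H : Type*} [NormedAddCommGroup H] [InnerProductSpace ℂ H] [CompleteSpace H]

omit [CompleteSpace H] in
/-- `L` is closed in the strong operator topology: every operator which can be approximated by
elements of `L` on every finite set of vectors lies in `L`. -/
def StronglyClosed (L : Set (H →L[ℂ] H)) : Prop :=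
  ∀ Q : H →L[ℂ] H,
    (∀ (F : Finset H) (ε : ℝ), 0 < ε → ∃ P ∈ L, ∀ x ∈ F, ‖P x - Q x‖ < ε) → Q ∈ L

/-- A commutative subspace lattice: a strongly closed lattice of mutually commuting orthogonal
projections containing `0` and `1`. -/
structure IsCSL (L : Set (H →L[ℂ] H)) : Prop where
  lattice : IsCommutingLattice L
  closed : StronglyClosed L

/-- The CSL generated by a family of projections: the intersection of all CSLs containing it. -/
def generatedCSL (S : Set (H →L[ℂ] H)) : Set (H →L[ℂ] H) :=
  {P | ∀ L : Set (H →L[ℂ] H), IsCSL L → S ⊆ L → P ∈ L}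

omit [CompleteSpace H] in
/-- `N` is closed under arbitrary intersections and arbitrary closed spans. -/
def IsComplete (N : Set (Submodule ℂ H)) : Prop :=
  ∀ S ⊆ N, sInf S ∈ N ∧ (sSup S).topologicalClosure ∈ N

omit [CompleteSpace H] in
/-- A nest: a chain of closed subspaces containing `0` and `H` and closed under arbitrary
intersections and arbitrary closed spans. -/
structure IsNest (N : Set (Submodule ℂ H)) : Prop where
  closed : ∀ M ∈ N, IsClosed (M : Set H)
  chain : ∀ M ∈ N, ∀ M' ∈ N, M ≤ M' ∨ M' ≤ M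
  bot_mem : ⊥ ∈ N
  top_mem : ⊤ ∈ N
  complete : IsComplete N

/-- The orthogonal projections onto the members of a family of closed subspaces. -/
def projections (N : Set (Submodule ℂ H)) : Set (H →L[ℂ] H) :=
  {P | IsStarProjection P ∧ ∃ M ∈ N, ∀ x, P x = x ↔ x ∈ M}

/-- `L` has width `n`: it is generated, as a strongly closed lattice, by `n` commuting nests. -/
def HasWidth (n : ℕ) (L : Set (H →L[ℂ] H)) : Prop :=
  ∃ N : Fin n → Set (Submodule ℂ H), (∀ i, IsNest (N i)) ∧
    (∀ P ∈ ⋃ i, projections (N i), ∀ Q ∈ ⋃ i, projections (N i), Commute P Q) ∧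
    L = generatedCSL (⋃ i, projections (N i))

end Hilbert

/-! ### The Volterra nest on each variable of the unit square -/

/-- Lebesgue measure on the unit square. -/
noncomputable def sq : Measure (ℝ × ℝ) := volume.restrict (Set.Icc 0 1 ×ˢ Set.Icc 0 1)

/-- The Hilbert space `L²([0,1]²)`. -/
noncomputable abbrev Hsq : Type := Lp ℂ 2 sq

/-- The nest `{N_t ⊗ I}`: the subspaces `{f : f(x,y) = 0 for a.e. (x,y) with x ≥ t}`,
`0 ≤ t ≤ 1`. -/
def volterraLeft : Set (Submodule ℂ Hsq) :=
  {M | ∃ t ∈ Set.Icc (0 : ℝ) 1, ∀ f : Hsq, f ∈ M ↔ ∀ᵐ z ∂sq, t ≤ z.1 → f z = 0}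

/-- The nest `{I ⊗ N_t}`: the subspaces `{f : f(x,y) = 0 for a.e. (x,y) with y ≥ t}`,
`0 ≤ t ≤ 1`. -/
def volterraRight : Set (Submodule ℂ Hsq) :=
  {M | ∃ t ∈ Set.Icc (0 : ℝ) 1, ∀ f : Hsq, f ∈ M ↔ ∀ᵐ z ∂sq, t ≤ z.2 → f z = 0}

/-- The CSL `N ⊗ N` on `L²([0,1]²)`. -/
def volterraTensor : Set (Hsq →L[ℂ] Hsq) :=
  generatedCSL (projections volterraLeft ∪ projections volterraRight)

end Pool.Agent.Work.MP_79b32e_an
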