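import Mathlib
import Pool.Agent.Work.MP_79b32e_an.Defs

set_option autoImplicit false

open MeasureTheory

namespace Pool.Agent.Work.MP_79b32e_an

lemma memLp_ind (S : Set (ℝ × ℝ)) (hS : MeasurableSet S) (f : Lp ℂ 2 sq) :
    MemLp (S.indicator (f : ℝ × ℝ → ℂ)) 2 sq := (Lp.memLp f).indicator hS

/-- The product of a function by the indicator of a measurable set. -/
noncomputable def cutFun (S : Set (ℝ × ℝ)) (hS : MeasurableSet S) (f : Lp ℂ 2 sq) : Lp ℂ 2 sq :=
  MemLp.toLp _ (memLp_ind S hS f)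

lemma cutFun_coe (S : Set (ℝ × ℝ)) (hS : MeasurableSet S) (f : Lp ℂ 2 sq) :
    (cutFun S hS f : ℝ × ℝ → ℂ) =ᵐ[sq] S.indicator (f : ℝ × ℝ → ℂ) :=
  MemLp.coeFn_toLp (memLp_ind S hS f)

lemma cutFun_add (S : Set (ℝ × ℝ)) (hS : MeasurableSet S) (f g : Lp ℂ 2 sq) :
    cutFun S hS (f + g) = cutFun S hS f + cutFun S hS g := by
  rw [Lp.ext_iff]
  filter_upwards [cutFun_coe S hS (f + g), cutFun_coe S hS f, cutFun_coe S hS g,
    Lp.coeFn_add f g, Lp.coeFn_add (cutFun S hS f) (cutFun S hS g)] with z h1 h2 h3 h4 h5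
  rw [h1, h5, Pi.add_apply, h2, h3]
  by_cases hz : z ∈ S
  · simp only [Set.indicator_of_mem hz, h4, Pi.add_apply]
  · simp only [Set.indicator_of_notMem hz, add_zero]

lemma cutFun_smul (S : Set (ℝ × ℝ)) (hS : MeasurableSet S) (c : ℂ) (f : Lp ℂ 2 sq) :
    cutFun S hS (c • f) = c • cutFun S hS f := by
  rw [Lp.ext_iff]
  filter_upwards [cutFun_coe S hS (c • f), cutFun_coe S hS f,
    Lp.coeFn_smul c f, Lp.coeFn_smul c (cutFun S hS f)] with z h1 h2 h4 h5
  rw [h1, h5, Pi.smul_apply, h2]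
  by_cases hz : z ∈ S
  · simp only [Set.indicator_of_mem hz, h4, Pi.smul_apply]
  · simp only [Set.indicator_of_notMem hz, smul_zero]

lemma norm_cutFun_le (S : Set (ℝ × ℝ)) (hS : MeasurableSet S) (f : Lp ℂ 2 sq) :
    ‖cutFun S hS f‖ ≤ ‖f‖ := by
  apply Lp.norm_le_norm_of_ae_le
  filter_upwards [cutFun_coe S hS f] with z h1
  rw [h1]
  exact norm_indicator_le_norm_self _ _

/-- Multiplication by the indicator of a measurable set. -/
noncomputable def cut (S : Set (ℝ × ℝ)) (hS : MeasurableSet S) : Hsq →L[ℂ] Hsq :=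
  LinearMap.mkContinuous
    { toFun := cutFun S hS
      map_add' := cutFun_add S hS
      map_smul' := cutFun_smul S hS }
    1 (fun f => by rw [one_mul]; exact norm_cutFun_le S hS f)

lemma cut_coe (S : Set (ℝ × ℝ)) (hS : MeasurableSet S) (f : Hsq) :
    (cut S hS f : ℝ × ℝ → ℂ) =ᵐ[sq] S.indicator (f : ℝ × ℝ → ℂ) := cutFun_coe S hS f

lemma cut_eq_self_iff (S : Set (ℝ × ℝ)) (hS : MeasurableSet S) (f : Hsq) :
    cut S hS f = f ↔ ∀ᵐ z ∂sq, z ∉ S → f z = 0 := by
  rw [Lp.ext_iff]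
  constructor
  · intro h
    filter_upwards [h, cut_coe S hS f] with z h1 h2 hz
    rw [← h1, h2, Set.indicator_of_notMem hz]
  · intro h
    filter_upwards [h, cut_coe S hS f] with z h1 h2
    rw [h2]
    by_cases hz : z ∈ S
    · rw [Set.indicator_of_mem hz]
    · rw [Set.indicator_of_notMem hz, h1 hz]

lemma cut_eq_zero_iff (S : Set (ℝ × ℝ)) (hS : MeasurableSet S) (f : Hsq) :
    cut S hS f = 0 ↔ ∀ᵐ z ∂sq, z ∈ S → f z = 0 := by
  rw [Lp.ext_iff]
  constructor
  · intro h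
    filter_upwards [h, cut_coe S hS f, Lp.coeFn_zero ℂ 2 sq] with z h1 h2 h3 hz
    rw [h2, h3, Set.indicator_of_mem hz] at h1
    exact h1
  · intro h
    filter_upwards [h, cut_coe S hS f, Lp.coeFn_zero ℂ 2 sq] with z h1 h2 h3
    rw [h2, h3]
    by_cases hz : z ∈ S
    · rw [Set.indicator_of_mem hz, h1 hz]; rfl
    · rw [Set.indicator_of_notMem hz]; rfl

lemma cut_mul (S T : Set (ℝ × ℝ)) (hS : MeasurableSet S) (hT : MeasurableSet T) :
    cut S hS * cut T hT = cut (S ∩ T) (hS.inter hT) := by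
  ext1 f
  show cut S hS (cut T hT f) = _
  rw [Lp.ext_iff]
  filter_upwards [cut_coe S hS (cut T hT f), cut_coe T hT f, cut_coe _ (hS.inter hT) f]
    with z h1 h2 h3
  rw [h1, h3]
  by_cases hz : z ∈ S
  · rw [Set.indicator_of_mem hz, h2]
    by_cases hz' : z ∈ T
    · rw [Set.indicator_of_mem hz', Set.indicator_of_mem (show z ∈ S ∩ T from ⟨hz, hz'⟩)]
    · rw [Set.indicator_of_notMem hz', Set.indicator_of_notMem (fun h : z ∈ S ∩ T => hz' h.2)]
  · rw [Set.indicator_of_notMem hz, Set.indicator_of_notMem (fun h : z ∈ S ∩ T => hz h.1)]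

lemma cut_congr {S T : Set (ℝ × ℝ)} (hS : MeasurableSet S) (hT : MeasurableSet T) (h : S = T) :
    cut S hS = cut T hT := by
  subst h; rfl

lemma cut_comm (S T : Set (ℝ × ℝ)) (hS : MeasurableSet S) (hT : MeasurableSet T) :
    cut S hS * cut T hT = cut T hT * cut S hS := by
  rw [cut_mul, cut_mul]
  exact cut_congr _ _ (Set.inter_comm S T)

lemma cut_proj (S : Set (ℝ × ℝ)) (hS : MeasurableSet S) : IsStarProjection (cut S hS) := by
  constructor
  · show cut S hS * cut S hS = cut S hS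
    rw [cut_mul]
    exact cut_congr _ _ (Set.inter_self S)
  · rw [ContinuousLinearMap.isSelfAdjoint_iff_isSymmetric]
    intro f g
    show inner ℂ (cut S hS f) g = inner ℂ f (cut S hS g)
    rw [L2.inner_def, L2.inner_def]
    apply integral_congr_ae
    filter_upwards [cut_coe S hS f, cut_coe S hS g] with z h1 h2
    rw [h1, h2]
    by_cases hz : z ∈ S
    · rw [Set.indicator_of_mem hz, Set.indicator_of_mem hz]
    · rw [Set.indicator_of_notMem hz, Set.indicator_of_notMem hz, inner_zero_left,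
        inner_zero_right]

section General

variable {H : Type*} [NormedAddCommGroup H] [InnerProductSpace ℂ H] [CompleteSpace H]

lemma proj_ext {P Q : H →L[ℂ] H} (hP : IsStarProjection P) (hQ : IsStarProjection Q)
    (h : ∀ f, P f = f ↔ Q f = f) : P = Q := by
  have h1 : P * Q = Q := by
    ext1 f
    show P (Q f) = Q f
    rw [h]
    exact congrArg (fun T : H →L[ℂ] H => T f) hQ.isIdempotentElem
  have h2 : Q * P = P := by
    ext1 f
    show Q (P f) = P f
    rw [← h]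
    exact congrArg (fun T : H →L[ℂ] H => T f) hP.isIdempotentElem
  have h3 : star (Q * P) = star P := by rw [h2]
  rw [star_mul, hP.isSelfAdjoint.star_eq, hQ.isSelfAdjoint.star_eq, h1] at h3
  exact h3.symm

end General

/-- The strip attached to a coordinate function. -/
def strip (c : ℝ × ℝ → ℝ) (t : ℝ) : Set (ℝ × ℝ) := {z | c z < t}

lemma meas_strip {c : ℝ × ℝ → ℝ} (hc : Measurable c) (t : ℝ) : MeasurableSet (strip c t) :=
  measurableSet_lt hc measurable_const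

/-- The subspaces attached to a coordinate function. -/
def nestOf (c : ℝ × ℝ → ℝ) : Set (Submodule ℂ Hsq) :=
  {M | ∃ t ∈ Set.Icc (0 : ℝ) 1, ∀ f : Hsq, f ∈ M ↔ ∀ᵐ z ∂sq, t ≤ c z → f z = 0}

lemma strip_iff {c : ℝ × ℝ → ℝ} (hc : Measurable c) (t : ℝ) (f : Hsq) :
    cut (strip c t) (meas_strip hc t) f = f ↔ ∀ᵐ z ∂sq, t ≤ c z → f z = 0 := by
  rw [cut_eq_self_iff]
  simp only [strip, Set.mem_ofPred_eq, not_lt]

/-- The subspace of fixed points of an operator. -/
noncomputable def fixSub (P : Hsq →L[ℂ] Hsq) : Submodule ℂ Hsq :=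
  LinearMap.ker (P - 1 : Hsq →L[ℂ] Hsq).toLinearMap

lemma mem_fixSub (P : Hsq →L[ℂ] Hsq) (x : Hsq) : x ∈ fixSub P ↔ P x = x := by
  unfold fixSub
  rw [LinearMap.mem_ker]
  show P x - x = 0 ↔ _
  exact sub_eq_zero

lemma isClosed_fixSub (P : Hsq →L[ℂ] Hsq) : IsClosed (fixSub P : Set Hsq) :=
  (P - 1 : Hsq →L[ℂ] Hsq).isClosed_ker

lemma mem_nestOf {c : ℝ × ℝ → ℝ} (hc : Measurable c) {M : Submodule ℂ Hsq} :
    M ∈ nestOf c ↔ ∃ t ∈ Set.Icc (0 : ℝ) 1, M = fixSub (cut (strip c t) (meas_strip hc t)) := by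
  constructor
  · rintro ⟨t, ht, h⟩
    refine ⟨t, ht, ?_⟩
    ext f
    rw [h, mem_fixSub, strip_iff hc]
  · rintro ⟨t, ht, rfl⟩
    refine ⟨t, ht, ?_⟩
    intro f
    rw [mem_fixSub, strip_iff hc]

lemma mem_proj_nestOf {c : ℝ × ℝ → ℝ} (hc : Measurable c) {P : Hsq →L[ℂ] Hsq} :
    P ∈ projections (nestOf c) ↔
      ∃ t ∈ Set.Icc (0 : ℝ) 1, P = cut (strip c t) (meas_strip hc t) := by
  constructor
  · rintro ⟨hP, M, hM, h⟩
    obtain ⟨t, ht, rfl⟩ := (mem_nestOf hc).mp hM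
    refine ⟨t, ht, proj_ext hP (cut_proj _ _) ?_⟩
    intro f
    rw [h, mem_fixSub]
  · rintro ⟨t, ht, rfl⟩
    exact ⟨cut_proj _ _, _, (mem_nestOf hc).mpr ⟨t, ht, rfl⟩, fun x => (mem_fixSub _ x).symm⟩

/-- Vertical strip. -/
def stripX (t : ℝ) : Set (ℝ × ℝ) := strip (fun z => z.1) t

/-- Horizontal strip. -/
def stripY (t : ℝ) : Set (ℝ × ℝ) := strip (fun z => z.2) t

lemma meas_stripX (t : ℝ) : MeasurableSet (stripX t) := meas_strip measurable_fst t

lemma meas_stripY (t : ℝ) : MeasurableSet (stripY t) := meas_strip measurable_snd t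

lemma mem_volterraLeft {P : Hsq →L[ℂ] Hsq} :
    P ∈ projections volterraLeft ↔
      ∃ t ∈ Set.Icc (0 : ℝ) 1, P = cut (stripX t) (meas_stripX t) :=
  mem_proj_nestOf measurable_fst

lemma mem_volterraRight {P : Hsq →L[ℂ] Hsq} :
    P ∈ projections volterraRight ↔
      ∃ t ∈ Set.Icc (0 : ℝ) 1, P = cut (stripY t) (meas_stripY t) :=
  mem_proj_nestOf measurable_snd

/-- Every generator is a cut. -/
lemma gen_is_cut {P : Hsq →L[ℂ] Hsq}
    (hP : P ∈ projections volterraLeft ∪ projections volterraRight) :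
    ∃ (S : Set (ℝ × ℝ)) (hS : MeasurableSet S), P = cut S hS := by
  rcases hP with hP | hP
  · obtain ⟨t, _, rfl⟩ := mem_volterraLeft.mp hP
    exact ⟨_, _, rfl⟩
  · obtain ⟨t, _, rfl⟩ := mem_volterraRight.mp hP
    exact ⟨_, _, rfl⟩

lemma gen_proj : ∀ P ∈ projections volterraLeft ∪ projections volterraRight,
    IsStarProjection P := by
  intro P hP
  obtain ⟨S, hS, rfl⟩ := gen_is_cut hP
  exact cut_proj _ _

lemma gen_comm : ∀ P ∈ projections volterraLeft ∪ projections volterraRight,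
    ∀ Q ∈ projections volterraLeft ∪ projections volterraRight, P * Q = Q * P := by
  intro P hP Q hQ
  obtain ⟨S, hS, rfl⟩ := gen_is_cut hP
  obtain ⟨T, hT, rfl⟩ := gen_is_cut hQ
  exact cut_comm _ _ _ _

end Pool.Agent.Work.MP_79b32e_an
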