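import Mathlib
import Pool.Agent.Work.MP_79b32e_an.Cut

set_option autoImplicit false

open MeasureTheory Filter Topology

namespace Pool.Agent.Work.MP_79b32e_an

lemma isNest_nestOf {c : ℝ × ℝ → ℝ} (hc : Measurable c) (h1 : ∀ t, ∀ᵐ z ∂sq, c z ≠ t)
    (h2 : ∀ᵐ z ∂sq, 0 ≤ c z ∧ c z ≤ 1) : IsNest (nestOf c) := by
  refine ⟨?_, ?_, ?_, ?_, ?_⟩
  · intro M hM
    obtain ⟨t, _, rfl⟩ := (mem_nestOf hc).mp hM
    exact isClosed_fixSub _
  · rintro M ⟨s, _, hM⟩ M' ⟨t, _, hM'⟩
    rcases le_total s t with hst | hst
    · left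
      intro f hf
      rw [hM] at hf
      rw [hM']
      filter_upwards [hf] with z hz ht
      exact hz (hst.trans ht)
    · right
      intro f hf
      rw [hM'] at hf
      rw [hM]
      filter_upwards [hf] with z hz ht
      exact hz (hst.trans ht)
  · refine ⟨0, ⟨le_rfl, zero_le_one⟩, ?_⟩
    intro f
    rw [Submodule.mem_bot]
    constructor
    · intro h
      rw [h]
      filter_upwards [Lp.coeFn_zero ℂ 2 sq] with z hz _
      rw [hz]; rfl
    · intro h
      rw [Lp.ext_iff]
      filter_upwards [Lp.coeFn_zero ℂ 2 sq, h, h2] with z hz hz1 hz2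
      rw [hz, hz1 hz2.1]; rfl
  · refine ⟨1, ⟨zero_le_one, le_rfl⟩, ?_⟩
    intro f
    constructor
    · intro _
      filter_upwards [h1 1, h2] with z hz hz2 hz3
      exact absurd (le_antisymm hz2.2 hz3) hz
    · intro _; exact Submodule.mem_top
  · intro S hS
    constructor
    · -- intersections
      set T : Set ℝ := {t | t ∈ Set.Icc (0 : ℝ) 1 ∧ fixSub (cut (strip c t) (meas_strip hc t)) ∈ S}
        ∪ {1} with hT
      have hTne : T.Nonempty := ⟨1, Or.inr rfl⟩
      have hTb : BddBelow T := by
        refine ⟨0, ?_⟩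
        rintro t (⟨ht, _⟩ | rfl)
        · exact ht.1
        · exact zero_le_one
      have hT0 : 0 ≤ sInf T := by
        apply le_csInf hTne
        rintro t (⟨ht, _⟩ | rfl)
        · exact ht.1
        · exact zero_le_one
      have hT1 : sInf T ≤ 1 := csInf_le hTb (Or.inr rfl)
      refine ⟨sInf T, ⟨hT0, hT1⟩, ?_⟩
      intro f
      rw [Submodule.mem_sInf]
      constructor
      · intro h
        obtain ⟨u, _, hu2, hu3⟩ := exists_seq_tendsto_sInf hTne hTb
        have h3 : ∀ k, ∀ᵐ z ∂sq, u k ≤ c z → f z = 0 := by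
          intro k
          rcases hu3 k with ⟨_, hk2⟩ | hk
          · rw [← strip_iff hc, ← mem_fixSub]
            exact h _ hk2
          · rw [hk]
            filter_upwards [h1 1, h2] with z hz hz2 hz3
            exact absurd (le_antisymm hz2.2 hz3) hz
        rw [← ae_all_iff] at h3
        filter_upwards [h3, h1 (sInf T)] with z hz hz1 hz2
        have h4 : sInf T < c z := lt_of_le_of_ne hz2 (Ne.symm hz1)
        obtain ⟨k, hk⟩ := (hu2.eventually (gt_mem_nhds h4)).exists
        exact hz k hk.le
      · intro h M hM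
        obtain ⟨t, ht, rfl⟩ := (mem_nestOf hc).mp (hS hM)
        rw [mem_fixSub, strip_iff hc]
        filter_upwards [h] with z hz hz2
        exact hz ((csInf_le hTb (Or.inl ⟨ht, hM⟩)).trans hz2)
    · -- closed spans
      set T : Set ℝ := {t | t ∈ Set.Icc (0 : ℝ) 1 ∧ fixSub (cut (strip c t) (meas_strip hc t)) ∈ S}
        ∪ {0} with hT
      have hTne : T.Nonempty := ⟨0, Or.inr rfl⟩
      have hTb : BddAbove T := by
        refine ⟨1, ?_⟩
        rintro t (⟨ht, _⟩ | rfl)
        · exact ht.2
        · exact zero_le_one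
      have hT0 : 0 ≤ sSup T := le_csSup hTb (Or.inr rfl)
      have hT1 : sSup T ≤ 1 := by
        apply csSup_le hTne
        rintro t (⟨ht, _⟩ | rfl)
        · exact ht.2
        · exact zero_le_one
      rw [mem_nestOf hc]
      refine ⟨sSup T, ⟨hT0, hT1⟩, ?_⟩
      set P := cut (strip c (sSup T)) (meas_strip hc (sSup T)) with hP
      apply le_antisymm
      · apply Submodule.topologicalClosure_minimal _ _ (isClosed_fixSub P)
        apply sSup_le
        intro M hM
        obtain ⟨t, ht, rfl⟩ := (mem_nestOf hc).mp (hS hM)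
        intro y hy
        rw [mem_fixSub, strip_iff hc] at hy
        rw [mem_fixSub, hP, strip_iff hc]
        filter_upwards [hy] with z hz hz2
        exact hz ((le_csSup hTb (Or.inl ⟨ht, hM⟩)).trans hz2)
      · intro f h
        rw [mem_fixSub] at h
        rw [← Submodule.orthogonal_orthogonal_eq_closure, Submodule.mem_orthogonal]
        intro y hy
        rw [Submodule.mem_orthogonal] at hy
        have hQy : ∀ t ∈ Set.Icc (0 : ℝ) 1,
            fixSub (cut (strip c t) (meas_strip hc t)) ∈ S →
            cut (strip c t) (meas_strip hc t) y = 0 := by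
          intro t ht hM
          set Q := cut (strip c t) (meas_strip hc t) with hQ
          have hQp : IsStarProjection Q := cut_proj _ _
          have h3 : Q (Q y) = Q y :=
            congrArg (fun T : Hsq →L[ℂ] Hsq => T y) hQp.isIdempotentElem
          have h4 : inner ℂ (Q y) y = 0 := by
            apply hy
            exact (le_sSup hM : fixSub Q ≤ sSup S) ((mem_fixSub Q (Q y)).mpr h3)
          have hsym := ContinuousLinearMap.isSelfAdjoint_iff_isSymmetric.mp hQp.isSelfAdjoint
          have h5 : inner ℂ (Q (Q y)) y = inner ℂ (Q y) (Q y) := hsym (Q y) y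
          rw [h3, h4] at h5
          exact inner_self_eq_zero.mp h5.symm
        obtain ⟨u, _, hu2, hu3⟩ := exists_seq_tendsto_sSup hTne hTb
        have h3 : ∀ k, ∀ᵐ z ∂sq, c z < u k → y z = 0 := by
          intro k
          rcases hu3 k with ⟨hk1, hk2⟩ | hk
          · have h4 := hQy _ hk1 hk2
            rw [cut_eq_zero_iff] at h4
            exact h4
          · rw [hk]
            filter_upwards [h2] with z hz2 hz3
            exact absurd hz2.1 (not_le.mpr hz3)
        rw [← ae_all_iff] at h3
        have hPy : P y = 0 := by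
          rw [hP, cut_eq_zero_iff]
          filter_upwards [h3] with z hz hz2
          have h4 : c z < sSup T := hz2
          obtain ⟨k, hk⟩ := (hu2.eventually (lt_mem_nhds h4)).exists
          exact hz k hk
        have hsym := ContinuousLinearMap.isSelfAdjoint_iff_isSymmetric.mp
          (cut_proj (strip c (sSup T)) (meas_strip hc (sSup T))).isSelfAdjoint
        have h5 : inner ℂ (P y) f = inner ℂ y (P f) := hsym y f
        rw [hPy, h, inner_zero_left] at h5
        exact h5.symm

lemma sq_null_fst (t : ℝ) : ∀ᵐ z ∂sq, z.1 ≠ t := by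
  unfold sq
  apply ae_restrict_of_ae
  rw [ae_iff]
  have : {a : ℝ × ℝ | ¬ a.1 ≠ t} = {t} ×ˢ Set.univ := by
    ext ⟨x, y⟩; simp
  rw [this, Measure.volume_eq_prod, Measure.prod_prod]
  simp

lemma sq_null_snd (t : ℝ) : ∀ᵐ z ∂sq, z.2 ≠ t := by
  unfold sq
  apply ae_restrict_of_ae
  rw [ae_iff]
  have : {a : ℝ × ℝ | ¬ a.2 ≠ t} = Set.univ ×ˢ {t} := by
    ext ⟨x, y⟩; simp
  rw [this, Measure.volume_eq_prod, Measure.prod_prod]
  simp

lemma sq_mem : ∀ᵐ z ∂sq, z ∈ Set.Icc (0 : ℝ) 1 ×ˢ Set.Icc (0 : ℝ) 1 := by
  unfold sq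
  exact ae_restrict_mem (measurableSet_Icc.prod measurableSet_Icc)

lemma isNest_left : IsNest volterraLeft := by
  have h := isNest_nestOf (c := fun z => z.1) measurable_fst sq_null_fst (by
    filter_upwards [sq_mem] with z hz
    exact hz.1)
  exact h

lemma isNest_right : IsNest volterraRight := by
  have h := isNest_nestOf (c := fun z => z.2) measurable_snd sq_null_snd (by
    filter_upwards [sq_mem] with z hz
    exact hz.2)
  exact h

lemma hasWidth_two : HasWidth 2 volterraTensor := by
  have hU : (⋃ i : Fin 2, projections (![volterraLeft, volterraRight] i)) =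
      projections volterraLeft ∪ projections volterraRight := by
    ext P
    simp [Fin.exists_fin_two]
  refine ⟨![volterraLeft, volterraRight], ?_, ?_, ?_⟩
  · intro i
    fin_cases i
    · exact isNest_left
    · exact isNest_right
  · rw [hU]
    intro P hP Q hQ
    exact gen_comm P hP Q hQ
  · rw [hU]; rfl

end Pool.Agent.Work.MP_79b32e_an
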