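import Mathlib

set_option autoImplicit false

namespace Pool.Agent.Work.MP_79b32e_an

/-- The finite posets: `Pn (n+1)` is the lexicographic composition of a two-point antichain,
a two-point chain and `Pn n`. -/
def Pn : ℕ → Type
  | 0 => Unit
  | n + 1 => Bool × Bool × Pn n

instance instFintypePn : (n : ℕ) → Fintype (Pn n)
  | 0 => inferInstanceAs (Fintype Unit)
  | n + 1 => by
    haveI := instFintypePn n
    exact inferInstanceAs (Fintype (Bool × Bool × Pn n))

instance instDecidableEqPn : (n : ℕ) → DecidableEq (Pn n)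
  | 0 => inferInstanceAs (DecidableEq Unit)
  | n + 1 => by
    haveI := instDecidableEqPn n
    exact inferInstanceAs (DecidableEq (Bool × Bool × Pn n))

/-- The strict order of `Pn n`. -/
def ltP : (n : ℕ) → Pn n → Pn n → Prop
  | 0, _, _ => False
  | n + 1, (α, m, p), (β, l, q) => α = β ∧ ((m = false ∧ l = true) ∨ (m = l ∧ ltP n p q))

/-- The orthogonal symmetric matrix `(1/5) [[3,4],[4,-3]]`. -/
noncomputable def U : Bool → Bool → ℝ
  | false, false => 3 / 5
  | false, true => 4 / 5
  | true, false => 4 / 5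
  | true, true => -3 / 5

/-- The `4 × 4` projection. -/
noncomputable def g (α m β l : Bool) : ℝ :=
  if α = β then (if m = l then 1 / 2 else 0) else U m l / 2

/-- Tensor powers of `g`. -/
noncomputable def Gm : (n : ℕ) → Pn n → Pn n → ℝ
  | 0, _, _ => 1
  | n + 1, (α, m, p), (β, l, q) => g α m β l * Gm n p q

/-- The test matrix. -/
noncomputable def Tm : (n : ℕ) → Pn n → Pn n → ℝ
  | 0, _, _ => 0
  | n + 1, (α, m, p), (β, l, q) =>
    if α = β then (if m = l then Tm n p q else (if m = true then Gm n p q else 0)) else 0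

/-- The action of `Gm`. -/
noncomputable def G (n : ℕ) (x : Pn n → ℝ) (a : Pn n) : ℝ := ∑ b, Gm n a b * x b

/-- The squared norm. -/
noncomputable def nsq {n : ℕ} (x : Pn n → ℝ) : ℝ := ∑ a, x a ^ 2

/-- The bilinear form of `Tm`. -/
noncomputable def B (n : ℕ) (z x : Pn n → ℝ) : ℝ := ∑ a, ∑ b, z a * Tm n a b * x b

/-- The element of `Pn (n+1)` with given digits. -/
def mk {n : ℕ} (α m : Bool) (p : Pn n) : Pn (n + 1) := (α, m, p)

/-- The structural equivalence. -/
def eqv (n : ℕ) : Bool × Bool × Pn n ≃ Pn (n + 1) where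
  toFun t := mk t.1 t.2.1 t.2.2
  invFun t := t
  left_inv _ := rfl
  right_inv _ := rfl

/-- Slices. -/
def sl {n : ℕ} {R : Type} (x : Pn (n + 1) → R) (α m : Bool) : Pn n → R :=
  fun p => x (mk α m p)

lemma sum_succ {n : ℕ} {R : Type} [AddCommMonoid R] (f : Pn (n + 1) → R) :
    ∑ a, f a = ∑ α : Bool, ∑ m : Bool, ∑ p : Pn n, f (mk α m p) := by
  rw [← (eqv n).sum_comp, Fintype.sum_prod_type]
  apply Finset.sum_congr rfl
  intro α _
  rw [Fintype.sum_prod_type]
  rfl

lemma nsq_nonneg {n : ℕ} (x : Pn n → ℝ) : 0 ≤ nsq x :=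
  Finset.sum_nonneg (fun _ _ => sq_nonneg _)

lemma nsq_succ {n : ℕ} (x : Pn (n + 1) → ℝ) :
    nsq x = ∑ α : Bool, ∑ m : Bool, nsq (sl x α m) := by
  unfold nsq
  rw [sum_succ]
  rfl

lemma G_succ {n : ℕ} (x : Pn (n + 1) → ℝ) (α m : Bool) (p : Pn n) :
    G (n + 1) x (mk α m p) =
      ∑ β : Bool, ∑ l : Bool, g α m β l * G n (sl x β l) p := by
  unfold G
  rw [sum_succ]
  apply Finset.sum_congr rfl
  intro β _
  apply Finset.sum_congr rfl
  intro l _
  rw [Finset.mul_sum]
  apply Finset.sum_congr rfl
  intro q _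
  simp only [Gm, sl, mk]
  ring

lemma g_symm (α m β l : Bool) : g α m β l = g β l α m := by
  unfold g
  cases α <;> cases m <;> cases β <;> cases l <;> simp [U]

lemma Gm_symm : ∀ (n : ℕ) (a b : Pn n), Gm n a b = Gm n b a
  | 0, _, _ => rfl
  | n + 1, (α, m, p), (β, l, q) => by
    simp only [Gm]
    rw [g_symm, Gm_symm n p q]

lemma G_symm (n : ℕ) (z x : Pn n → ℝ) : ∑ a, z a * G n x a = ∑ a, G n z a * x a := by
  unfold G
  simp_rw [Finset.mul_sum, Finset.sum_mul]
  rw [Finset.sum_comm]
  apply Finset.sum_congr rfl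
  intro a _
  apply Finset.sum_congr rfl
  intro b _
  rw [Gm_symm n b a]
  ring

/-- Pointwise contraction property. -/
lemma g_contr (y : Bool → Bool → ℝ) :
    ∑ α : Bool, ∑ m : Bool, (∑ β : Bool, ∑ l : Bool, g α m β l * y β l) ^ 2 ≤
      ∑ β : Bool, ∑ l : Bool, y β l ^ 2 := by
  simp only [Fintype.sum_bool, g, U]
  norm_num
  nlinarith [sq_nonneg (5 * y false false - 3 * y true false - 4 * y true true),
    sq_nonneg (5 * y false true - 4 * y true false + 3 * y true true)]

/-- Pointwise strict contraction along a path. -/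
lemma g_path (y : Bool → Bool → ℝ) (c : Bool → Bool) :
    ∑ α : Bool, ∑ m : Bool, (∑ β : Bool, ∑ l : Bool, g α m β l * y β l) ^ 2 ≤
      (19 / 20) * ∑ α : Bool, y α (c α) ^ 2 + (41 / 10) * ∑ α : Bool, y α (!c α) ^ 2 := by
  have key : ∑ α : Bool, ∑ m : Bool, (∑ β : Bool, ∑ l : Bool, g α m β l * y β l) ^ 2 =
      (1 / 2) * (y false false ^ 2 + y false true ^ 2 + y true false ^ 2 + y true true ^ 2) +
      (3 / 5) * (y false false * y true false) + (4 / 5) * (y false false * y true true) +
      (4 / 5) * (y false true * y true false) - (3 / 5) * (y false true * y true true) := by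
    simp only [Fintype.sum_bool, g, U]
    norm_num
    ring
  rw [key]
  simp only [Fintype.sum_bool]
  cases h0 : c false <;> cases h1 : c true <;> simp only [Bool.not_true, Bool.not_false] <;>
  nlinarith [sq_nonneg (y false false - y true false), sq_nonneg (y false false - 8 * y true true),
    sq_nonneg (y true false - 8 * y false true), sq_nonneg (y false true + y true true),
    sq_nonneg (y false false - y true true), sq_nonneg (y false true - y true false),
    sq_nonneg (y false false - 8 * y true false), sq_nonneg (y true true + 8 * y false true),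
    sq_nonneg (8 * y false false - y true false), sq_nonneg (8 * y true true + y false true),
    sq_nonneg (y true true - 8 * y false false), sq_nonneg (y false true - 8 * y true false),
    sq_nonneg (y false true + 8 * y true true),
    sq_nonneg (y false false), sq_nonneg (y false true), sq_nonneg (y true false),
    sq_nonneg (y true true)]

lemma nsq_G_succ {n : ℕ} (x : Pn (n + 1) → ℝ) :
    nsq (G (n + 1) x) = ∑ p : Pn n, ∑ α : Bool, ∑ m : Bool,
      (∑ β : Bool, ∑ l : Bool, g α m β l * G n (sl x β l) p) ^ 2 := by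
  unfold nsq
  rw [sum_succ]
  simp_rw [G_succ]
  have h1 : ∀ α : Bool, ∑ m : Bool, ∑ p : Pn n,
      (∑ β : Bool, ∑ l : Bool, g α m β l * G n (sl x β l) p) ^ 2 =
      ∑ p : Pn n, ∑ m : Bool,
      (∑ β : Bool, ∑ l : Bool, g α m β l * G n (sl x β l) p) ^ 2 :=
    fun α => Finset.sum_comm
  simp_rw [h1]
  exact Finset.sum_comm

lemma nsq_G_le : ∀ (n : ℕ) (x : Pn n → ℝ), nsq (G n x) ≤ nsq x
  | 0, x => by
    have : G 0 x = x := by
      funext a
      unfold G
      have h : ∀ b : Pn 0, b = a := fun b => rfl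
      rw [Fintype.sum_eq_single a (fun b hb => absurd (h b) hb)]
      simp [Gm]
    rw [this]
  | n + 1, x => by
    rw [nsq_G_succ, nsq_succ]
    calc _ ≤ ∑ p : Pn n, ∑ β : Bool, ∑ l : Bool, (G n (sl x β l) p) ^ 2 := by
          apply Finset.sum_le_sum
          intro p _
          exact g_contr (fun β l => G n (sl x β l) p)
      _ = ∑ β : Bool, ∑ l : Bool, nsq (G n (sl x β l)) := by
          rw [Finset.sum_comm]
          apply Finset.sum_congr rfl
          intro β _
          rw [Finset.sum_comm]
          rfl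
      _ ≤ _ := by
          apply Finset.sum_le_sum
          intro β _
          apply Finset.sum_le_sum
          intro l _
          exact nsq_G_le n (sl x β l)

lemma nsq_G_path {n : ℕ} (x : Pn (n + 1) → ℝ) (c : Bool → Bool) :
    nsq (G (n + 1) x) ≤ (19 / 20) * ∑ α : Bool, nsq (G n (sl x α (c α))) +
      (41 / 10) * ∑ α : Bool, nsq (sl x α (!c α)) := by
  rw [nsq_G_succ]
  calc _ ≤ ∑ p : Pn n, ((19 / 20) * ∑ α : Bool, (G n (sl x α (c α)) p) ^ 2 +
        (41 / 10) * ∑ α : Bool, (G n (sl x α (!c α)) p) ^ 2) := by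
        apply Finset.sum_le_sum
        intro p _
        exact g_path (fun β l => G n (sl x β l) p) c
    _ = (19 / 20) * ∑ α : Bool, nsq (G n (sl x α (c α))) +
        (41 / 10) * ∑ α : Bool, nsq (G n (sl x α (!c α))) := by
        rw [Finset.sum_add_distrib, ← Finset.mul_sum, ← Finset.mul_sum]
        congr 2
        · rw [Finset.sum_comm]; rfl
        · rw [Finset.sum_comm]; rfl
    _ ≤ _ := by
        have h : ∑ α : Bool, nsq (G n (sl x α (!c α))) ≤ ∑ α : Bool, nsq (sl x α (!c α)) :=
          Finset.sum_le_sum (fun α _ => nsq_G_le n _)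
        linarith

lemma B_succ {n : ℕ} (z x : Pn (n + 1) → ℝ) :
    B (n + 1) z x = ∑ α : Bool, (B n (sl z α false) (sl x α false) +
      B n (sl z α true) (sl x α true) +
      ∑ p, sl z α true p * G n (sl x α false) p) := by
  unfold B
  rw [sum_succ]
  apply Finset.sum_congr rfl
  intro α _
  have h1 : ∀ (m : Bool) (p : Pn n), ∑ b, z (mk α m p) * Tm (n + 1) (mk α m p) b * x b =
      ∑ q, z (mk α m p) * Tm n p q * x (mk α m q) +
      (if m = true then z (mk α true p) * G n (sl x α false) p else 0) := by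
    intro m p
    rw [sum_succ]
    rw [Finset.sum_eq_single α]
    · rw [Fintype.sum_bool]
      cases m
      · simp [Tm, mk]
      · simp only [Tm, mk, if_true]
        simp only [Bool.true_eq_false, if_false]
        unfold G
        rw [Finset.mul_sum]
        congr 1
        apply Finset.sum_congr rfl
        intro q _
        simp only [sl, mk]
        ring
    · intro β _ hβ
      apply Finset.sum_eq_zero
      intro l _
      apply Finset.sum_eq_zero
      intro q _
      have : Tm (n + 1) (mk α m p) (mk β l q) = 0 := by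
        simp [Tm, mk, Ne.symm hβ]
      rw [this]; ring
    · intro h; exact absurd (Finset.mem_univ _) h
  simp_rw [h1]
  rw [Fintype.sum_bool]
  simp only [if_true, Bool.false_eq_true, if_false, add_zero]
  rw [Finset.sum_add_distrib]
  simp only [sl]
  ring

end Pool.Agent.Work.MP_79b32e_an
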