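import Mathlib
import Pool.Agent.Work.MP_79b32e_an.Poset

set_option autoImplicit false

namespace Pool.Agent.Work.MP_79b32e_an

/-- The corner condition: `x` and `z` are never simultaneously nonzero at `b > a`. -/
def Cor {n : ℕ} {R : Type} [Zero R] (z x : Pn n → R) : Prop :=
  ∀ a b, ltP n a b → x b = 0 ∨ z a = 0

lemma Cor_sl {n : ℕ} {z x : Pn (n + 1) → ℝ} (h : Cor z x) (α m : Bool) :
    Cor (sl z α m) (sl x α m) := by
  intro a b hab
  exact h (mk α m a) (mk α m b) ⟨rfl, Or.inr ⟨rfl, hab⟩⟩

lemma Cor_split {n : ℕ} {z x : Pn (n + 1) → ℝ} (h : Cor z x) (α : Bool) :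
    sl x α true = 0 ∨ sl z α false = 0 := by
  by_cases hx : sl x α true = 0
  · left; exact hx
  · right
    obtain ⟨q, hq⟩ : ∃ q, sl x α true q ≠ 0 := by
      by_contra hcon
      push Not at hcon
      exact hx (funext hcon)
    funext p
    rcases h (mk α false p) (mk α true q) ⟨rfl, Or.inl ⟨rfl, rfl⟩⟩ with h1 | h1
    · exact absurd h1 hq
    · exact h1

lemma B_zero_left {n : ℕ} (x : Pn n → ℝ) : B n 0 x = 0 := by simp [B]

lemma B_zero_right {n : ℕ} (z : Pn n → ℝ) : B n z 0 = 0 := by simp [B]

lemma inner_bound {n : ℕ} (u v : Pn n → ℝ) :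
    |∑ p, u p * v p| ≤ nsq u + (1 / 4) * nsq v := by
  calc |∑ p, u p * v p| ≤ ∑ p, |u p * v p| := Finset.abs_sum_le_sum_abs _ _
    _ ≤ ∑ p, (u p ^ 2 + (1 / 4) * v p ^ 2) := by
        apply Finset.sum_le_sum
        intro p _
        rw [abs_le]
        constructor
        · nlinarith [sq_nonneg (2 * u p + v p)]
        · nlinarith [sq_nonneg (2 * u p - v p)]
    _ = _ := by
        rw [Finset.sum_add_distrib, ← Finset.mul_sum]
        rfl

/-- The Bellman type estimate of the corners. -/
lemma bellman : ∀ (n : ℕ) (z x : Pn n → ℝ), Cor z x →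
    |B n z x| ≤ 83 * (nsq x + nsq z) - 20 * (nsq (G n x) + nsq (G n z))
  | 0, z, x, _ => by
    have h0 : B 0 z x = 0 := by
      unfold B
      apply Finset.sum_eq_zero
      intro a _
      apply Finset.sum_eq_zero
      intro b _
      simp [Tm]
    rw [h0, abs_zero]
    have h1 := nsq_G_le 0 x
    have h2 := nsq_G_le 0 z
    have h3 := nsq_nonneg x
    have h4 := nsq_nonneg z
    linarith
  | n + 1, z, x, h => by
    -- choose the path
    have hc : ∀ α : Bool, ∃ c : Bool,
        |B n (sl z α false) (sl x α false) + B n (sl z α true) (sl x α true) +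
          ∑ p, sl z α true p * G n (sl x α false) p| ≤
        83 * (nsq (sl x α c) + nsq (sl z α c)) -
          19 * (nsq (G n (sl x α c)) + nsq (G n (sl z α c))) +
          (1 / 4) * (nsq (sl x α (!c)) + nsq (sl z α (!c))) := by
      intro α
      rcases Cor_split h α with h1 | h1
      · refine ⟨false, ?_⟩
        rw [h1, B_zero_right, add_zero]
        have h2 := bellman n (sl z α false) (sl x α false) (Cor_sl h α false)
        have h3 : |∑ p, sl z α true p * G n (sl x α false) p| ≤
            nsq (G n (sl x α false)) + (1 / 4) * nsq (sl z α true) := by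
          have := inner_bound (G n (sl x α false)) (sl z α true)
          simp_rw [mul_comm (sl z α true _)]
          exact this
        have h4 := abs_add_le (B n (sl z α false) (sl x α false))
          (∑ p, sl z α true p * G n (sl x α false) p)
        have h5 := nsq_nonneg (G n (sl z α false))
        have h6 := nsq_nonneg (sl x α true)
        simp only [Bool.not_false]
        linarith
      · refine ⟨true, ?_⟩
        rw [h1, B_zero_left, zero_add]
        have h2 := bellman n (sl z α true) (sl x α true) (Cor_sl h α true)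
        have h3 : |∑ p, sl z α true p * G n (sl x α false) p| ≤
            nsq (G n (sl z α true)) + (1 / 4) * nsq (sl x α false) := by
          rw [G_symm]
          exact inner_bound (G n (sl z α true)) (sl x α false)
        have h4 := abs_add_le (B n (sl z α true) (sl x α true))
          (∑ p, sl z α true p * G n (sl x α false) p)
        have h5 := nsq_nonneg (G n (sl x α true))
        have h6 := nsq_nonneg (sl z α false)
        simp only [Bool.not_true]
        linarith
    choose c hc using hc
    have h1 : |B (n + 1) z x| ≤ ∑ α : Bool, (83 * (nsq (sl x α (c α)) + nsq (sl z α (c α))) -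
          19 * (nsq (G n (sl x α (c α))) + nsq (G n (sl z α (c α)))) +
          (1 / 4) * (nsq (sl x α (!c α)) + nsq (sl z α (!c α)))) := by
      rw [B_succ]
      exact (Finset.abs_sum_le_sum_abs _ _).trans (Finset.sum_le_sum (fun α _ => hc α))
    have h2 := nsq_G_path x c
    have h3 := nsq_G_path z c
    have h4 : ∀ y : Pn (n + 1) → ℝ, nsq y = ∑ α : Bool, (nsq (sl y α (c α)) +
        nsq (sl y α (!c α))) := by
      intro y
      rw [nsq_succ]
      apply Finset.sum_congr rfl
      intro α _
      rw [Fintype.sum_bool]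
      cases c α
      · simp only [Bool.not_false]; ring
      · simp only [Bool.not_true]
    have h5 := h4 x
    have h6 := h4 z
    simp only [Fintype.sum_bool] at h1 h2 h3 h5 h6
    have e1 := nsq_nonneg (sl x true (!c true))
    have e2 := nsq_nonneg (sl x false (!c false))
    have e3 := nsq_nonneg (sl z true (!c true))
    have e4 := nsq_nonneg (sl z false (!c false))
    linarith

lemma corner_real (n : ℕ) (z x : Pn n → ℝ) (h : Cor z x) :
    |B n z x| ≤ 83 * (nsq x + nsq z) := by
  have h1 := bellman n z x h
  have h2 := nsq_nonneg (G n x)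
  have h3 := nsq_nonneg (G n z)
  linarith

/-- The corner estimate for complex vectors. -/
lemma corner_complex (n : ℕ) (z x : Pn n → ℂ) (h : Cor z x) :
    ‖∑ a, ∑ b, (starRingEnd ℂ) (z a) * (Tm n a b : ℂ) * x b‖ ≤
      166 * (∑ a, ‖x a‖ ^ 2 + ∑ a, ‖z a‖ ^ 2) := by
  set x1 : Pn n → ℝ := fun a => (x a).re with hx1
  set x2 : Pn n → ℝ := fun a => (x a).im with hx2
  set z1 : Pn n → ℝ := fun a => (z a).re with hz1
  set z2 : Pn n → ℝ := fun a => (z a).im with hz2
  have hcor : ∀ (u v : Pn n → ℝ), (∀ a, z a = 0 → u a = 0) → (∀ a, x a = 0 → v a = 0) →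
      Cor u v := by
    intro u v hu hv a b hab
    rcases h a b hab with h1 | h1
    · left; exact hv b h1
    · right; exact hu a h1
  have c11 := corner_real n z1 x1 (hcor z1 x1 (fun a ha => by simp [hz1, ha])
    (fun a ha => by simp [hx1, ha]))
  have c12 := corner_real n z1 x2 (hcor z1 x2 (fun a ha => by simp [hz1, ha])
    (fun a ha => by simp [hx2, ha]))
  have c21 := corner_real n z2 x1 (hcor z2 x1 (fun a ha => by simp [hz2, ha])
    (fun a ha => by simp [hx1, ha]))
  have c22 := corner_real n z2 x2 (hcor z2 x2 (fun a ha => by simp [hz2, ha])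
    (fun a ha => by simp [hx2, ha]))
  have hdec : ∑ a, ∑ b, (starRingEnd ℂ) (z a) * (Tm n a b : ℂ) * x b =
      ((B n z1 x1 + B n z2 x2 : ℝ) : ℂ) + ((B n z1 x2 - B n z2 x1 : ℝ) : ℂ) * Complex.I := by
    unfold B
    push_cast
    rw [← Finset.sum_add_distrib, ← Finset.sum_sub_distrib, Finset.sum_mul,
      ← Finset.sum_add_distrib]
    apply Finset.sum_congr rfl
    intro a _
    rw [← Finset.sum_add_distrib, ← Finset.sum_sub_distrib, Finset.sum_mul,
      ← Finset.sum_add_distrib]
    apply Finset.sum_congr rfl
    intro b _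
    apply Complex.ext
    · simp [hx1, hx2, hz1, hz2]
      try ring
    · simp [hx1, hx2, hz1, hz2]
      try ring
  have hn : ∀ y : Pn n → ℂ, ∑ a, ‖y a‖ ^ 2 =
      nsq (fun a => (y a).re) + nsq (fun a => (y a).im) := by
    intro y
    unfold nsq
    rw [← Finset.sum_add_distrib]
    apply Finset.sum_congr rfl
    intro a _
    rw [Complex.sq_norm, Complex.normSq_apply]
    ring
  rw [hdec, hn x, hn z]
  refine (norm_add_le _ _).trans ?_
  rw [norm_mul, Complex.norm_real, Complex.norm_real, Complex.norm_I, mul_one,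
    Real.norm_eq_abs, Real.norm_eq_abs]
  have t1 := abs_add_le (B n z1 x1) (B n z2 x2)
  have t2 := abs_sub (B n z1 x2) (B n z2 x1)
  linarith

end Pool.Agent.Work.MP_79b32e_an
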