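import Mathlib
import Pool.Agent.Work.MP_79b32e_an.Poset

set_option autoImplicit false

namespace Pool.Agent.Work.MP_79b32e_an

/-- The block of the dual functional. -/
noncomputable def w (δ : ℝ) (α m β l : Bool) : ℝ :=
  g α m β l + (if l = true then δ * g α m β false else 0)

/-- Tensor powers of `w`. -/
noncomputable def Wm (δ : ℝ) : (n : ℕ) → Pn n → Pn n → ℝ
  | 0, _, _ => 1
  | n + 1, (α, m, p), (β, l, q) => w δ α m β l * Wm δ n p q

lemma Wm_succ (δ : ℝ) {n : ℕ} (α m β l : Bool) (p q : Pn n) :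
    Wm δ (n + 1) (mk α m p) (mk β l q) = w δ α m β l * Wm δ n p q := rfl

lemma Gm_succ {n : ℕ} (α m β l : Bool) (p q : Pn n) :
    Gm (n + 1) (mk α m p) (mk β l q) = g α m β l * Gm n p q := rfl

lemma g_mul_w (δ : ℝ) (α m β l : Bool) :
    ∑ γ : Bool, ∑ k : Bool, g α m γ k * w δ γ k β l = w δ α m β l := by
  simp only [Fintype.sum_bool, g, w, U]
  cases α <;> cases m <;> cases β <;> cases l <;> norm_num <;> ring

lemma G_mul_W (δ : ℝ) : ∀ (n : ℕ) (a b : Pn n), ∑ c, Gm n a c * Wm δ n c b = Wm δ n a b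
  | 0, a, b => by
    have h : ∀ c : Pn 0, c = a := fun c => rfl
    rw [Fintype.sum_eq_single a (fun c hc => absurd (h c) hc)]
    simp [Gm, Wm]
  | n + 1, (α, m, p), (β, l, q) => by
    show ∑ c, Gm (n + 1) (mk α m p) c * Wm δ (n + 1) c (mk β l q) =
      Wm δ (n + 1) (mk α m p) (mk β l q)
    rw [sum_succ]
    simp only [Wm_succ, Gm_succ]
    have h1 : ∀ γ k : Bool, ∑ r : Pn n, g α m γ k * Gm n p r * (w δ γ k β l * Wm δ n r q) =
        g α m γ k * w δ γ k β l * Wm δ n p q := by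
      intro γ k
      rw [← G_mul_W δ n p q, Finset.mul_sum]
      apply Finset.sum_congr rfl
      intro r _
      ring
    simp_rw [h1, ← Finset.sum_mul]
    rw [g_mul_w]

lemma sum_sq_g : ∑ α : Bool, ∑ m : Bool, ∑ β : Bool, ∑ l : Bool, g α m β l ^ 2 = 2 := by
  simp only [Fintype.sum_bool, g, U]
  norm_num

lemma sum_sq_w (δ : ℝ) :
    ∑ α : Bool, ∑ m : Bool, ∑ β : Bool, ∑ l : Bool, w δ α m β l ^ 2 = 2 + δ ^ 2 := by
  simp only [Fintype.sum_bool, g, w, U]
  norm_num
  ring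

lemma sum_sq_G : ∀ n : ℕ, ∑ a : Pn n, ∑ b : Pn n, Gm n a b ^ 2 = 2 ^ n
  | 0 => by
    have h : Fintype.card (Pn 0) = 1 := rfl
    simp [Gm, h]
  | n + 1 => by
    rw [sum_succ]
    have h1 : ∀ (α m : Bool) (p : Pn n), ∑ b, Gm (n + 1) (mk α m p) b ^ 2 =
        (∑ β : Bool, ∑ l : Bool, g α m β l ^ 2) * ∑ q, Gm n p q ^ 2 := by
      intro α m p
      rw [sum_succ]
      simp only [Gm_succ, mul_pow, ← Finset.mul_sum, ← Finset.sum_mul]
    simp_rw [h1, ← Finset.mul_sum, sum_sq_G n, ← Finset.sum_mul, sum_sq_g]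
    ring

lemma sum_sq_W (δ : ℝ) : ∀ n : ℕ, ∑ a : Pn n, ∑ b : Pn n, Wm δ n a b ^ 2 = (2 + δ ^ 2) ^ n
  | 0 => by
    have h : Fintype.card (Pn 0) = 1 := rfl
    simp [Wm, h]
  | n + 1 => by
    rw [sum_succ]
    have h1 : ∀ (α m : Bool) (p : Pn n), ∑ b, Wm δ (n + 1) (mk α m p) b ^ 2 =
        (∑ β : Bool, ∑ l : Bool, w δ α m β l ^ 2) * ∑ q, Wm δ n p q ^ 2 := by
      intro α m p
      rw [sum_succ]
      simp only [Wm_succ, mul_pow, ← Finset.mul_sum, ← Finset.sum_mul]
    simp_rw [h1, ← Finset.mul_sum, sum_sq_W δ n, ← Finset.sum_mul, sum_sq_w]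
    ring

lemma card_Pn : ∀ n : ℕ, Fintype.card (Pn n) = 4 ^ n
  | 0 => rfl
  | n + 1 => by
    rw [← Fintype.card_congr (eqv n)]
    simp only [Fintype.card_prod, Fintype.card_bool, card_Pn n]
    ring

/-- Diagonal entries of `Wm`. -/
lemma Wm_diag (δ : ℝ) : ∀ (n : ℕ) (a : Pn n), Wm δ n a a = (1 / 2) ^ n
  | 0, _ => by simp [Wm]
  | n + 1, (α, m, p) => by
    show Wm δ (n + 1) (mk α m p) (mk α m p) = _
    rw [Wm_succ, Wm_diag δ n p]
    have : w δ α m α m = 1 / 2 := by
      cases α <;> cases m <;> simp [w, g]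
    rw [this]; ring

/-- `Wm` vanishes at the transposed strict relations. -/
lemma Wm_lt (δ : ℝ) : ∀ (n : ℕ) (a b : Pn n), ltP n a b → Wm δ n b a = 0
  | 0, _, _, h => absurd h id
  | n + 1, (α, m, p), (β, l, q), h => by
    show Wm δ (n + 1) (mk β l q) (mk α m p) = 0
    rw [Wm_succ]
    obtain ⟨h1, h2⟩ := h
    subst h1
    rcases h2 with ⟨h3, h4⟩ | ⟨h3, h4⟩
    · subst h3; subst h4
      have : w δ α true α false = 0 := by simp [w, g]
      rw [this, zero_mul]
    · rw [Wm_lt δ n p q h4, mul_zero]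

/-- `Tm` vanishes on the diagonal and at the strict relations. -/
lemma Tm_diag : ∀ (n : ℕ) (a : Pn n), Tm n a a = 0
  | 0, _ => rfl
  | n + 1, (α, m, p) => by
    simp only [Tm, if_true]
    exact Tm_diag n p

lemma Tm_lt : ∀ (n : ℕ) (a b : Pn n), ltP n a b → Tm n a b = 0
  | 0, _, _, _ => rfl
  | n + 1, (α, m, p), (β, l, q), h => by
    obtain ⟨h1, h2⟩ := h
    subst h1
    simp only [Tm, if_true]
    rcases h2 with ⟨h3, h4⟩ | ⟨h3, h4⟩
    · subst h3; subst h4; simp
    · subst h3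
      simp only [if_true]
      exact Tm_lt n p q h4

/-- Trace pairing of `Gm` and `Wm`. -/
lemma G_pair_W (δ : ℝ) (n : ℕ) : ∑ a : Pn n, ∑ b : Pn n, Gm n a b * Wm δ n b a = 2 ^ n := by
  simp_rw [G_mul_W, Wm_diag]
  simp only [Finset.sum_const, Finset.card_univ, card_Pn, nsmul_eq_mul]
  push_cast
  rw [← mul_pow]
  norm_num

/-- Trace pairing of `Tm` and `Wm`. -/
lemma T_pair_W (δ : ℝ) : ∀ n : ℕ, 2 * ∑ a : Pn n, ∑ b : Pn n, Tm n a b * Wm δ n b a =
    n * δ * 2 ^ n
  | 0 => by simp [Tm]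
  | n + 1 => by
    rw [sum_succ]
    have h1 : ∀ (α m : Bool) (p : Pn n), ∑ b, Tm (n + 1) (mk α m p) b * Wm δ (n + 1) b (mk α m p) =
        w δ α m α m * ∑ q, Tm n p q * Wm δ n q p +
        (if m = true then w δ α false α true * ∑ q, Gm n p q * Wm δ n q p else 0) := by
      intro α m p
      rw [sum_succ]
      rw [Finset.sum_eq_single α]
      · rw [Fintype.sum_bool]
        simp only [Wm_succ]
        cases m
        · simp only [Tm, mk, if_true, Bool.false_eq_true, if_false]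
          simp only [zero_mul, Finset.sum_const_zero, zero_add, add_zero]
          rw [Finset.mul_sum]
          apply Finset.sum_congr rfl
          intro q _
          ring
        · simp only [Tm, mk, if_true, Bool.true_eq_false, if_false]
          rw [Finset.mul_sum, Finset.mul_sum]
          congr 1
          · apply Finset.sum_congr rfl
            intro q _
            ring
          · apply Finset.sum_congr rfl
            intro q _
            ring
      · intro β _ hβ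
        apply Finset.sum_eq_zero
        intro l _
        apply Finset.sum_eq_zero
        intro q _
        have : Tm (n + 1) (mk α m p) (mk β l q) = 0 := by
          simp [Tm, mk, Ne.symm hβ]
        rw [this]; ring
      · intro h; exact absurd (Finset.mem_univ _) h
    simp_rw [h1]
    have h2 : ∀ (α : Bool), w δ α false α true = δ / 2 := by
      intro α; simp [w, g]; ring
    have h3 : ∀ (α m : Bool), w δ α m α m = 1 / 2 := by
      intro α m; cases α <;> cases m <;> simp [w, g]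
    have h4 := T_pair_W δ n
    have h5 := G_pair_W δ n
    simp only [Fintype.sum_bool, h2, h3, if_true, Bool.false_eq_true, if_false,
      Finset.sum_add_distrib, ← Finset.mul_sum, Finset.sum_const_zero]
    rw [h5]
    push_cast
    linear_combination 2 * h4

/-- The lower bound for the distance. -/
lemma lower (n : ℕ) (δ β : ℝ) (D : Pn n → Pn n → ℂ)
    (hD : ∀ r c : Pn n → ℝ, ‖∑ a, ∑ b, (r a : ℂ) * D a b * (c b : ℂ)‖ ≤
      β * (nsq r + nsq c) / 2)
    (hT : ∀ a b, a ≠ b → ¬ ltP n a b → D a b = (Tm n a b : ℂ)) :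
    n * δ ≤ β * ((1 + δ ^ 2 / 2) ^ n + 3) := by
  -- the pairing identity
  have hpair : ∑ a, ∑ b, D a b * (Wm δ n b a : ℂ) =
      ((∑ a : Pn n, ∑ b : Pn n, Tm n a b * Wm δ n b a : ℝ) : ℂ) +
      ((1 / 2 : ℂ) ^ n) * ∑ a, D a a := by
    have h1 : ∀ a b, D a b * (Wm δ n b a : ℂ) = (Tm n a b : ℂ) * (Wm δ n b a : ℂ) +
        (if a = b then (1 / 2 : ℂ) ^ n * D a a else 0) := by
      intro a b
      by_cases hab : a = b
      · subst hab
        rw [Tm_diag, Wm_diag]
        push_cast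
        simp
        ring
      · rw [if_neg hab]
        by_cases hlt : ltP n a b
        · rw [Wm_lt δ n a b hlt]; simp
        · rw [hT a b hab hlt]; simp
    simp_rw [h1, Finset.sum_add_distrib]
    push_cast
    congr 1
    simp only [Finset.sum_ite_eq, Finset.mem_univ, if_true]
    rw [Finset.mul_sum]
  -- bound of the left side
  have hleft : ‖∑ a, ∑ b, D a b * (Wm δ n b a : ℂ)‖ ≤
      β * ((2 + δ ^ 2) ^ n + 2 ^ n) / 2 := by
    have h1 : ∑ a, ∑ b, D a b * (Wm δ n b a : ℂ) =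
        ∑ c, ∑ a, ∑ b, (Wm δ n c a : ℂ) * D a b * (Gm n b c : ℂ) := by
      have h2 : ∀ a b, D a b * (Wm δ n b a : ℂ) =
          ∑ c, (Wm δ n c a : ℂ) * D a b * (Gm n b c : ℂ) := by
        intro a b
        rw [← G_mul_W δ n b a]
        push_cast
        rw [Finset.mul_sum]
        apply Finset.sum_congr rfl
        intro c _
        ring
      simp_rw [h2]
      have h3 : ∀ a : Pn n, ∑ b : Pn n, ∑ c : Pn n,
          (Wm δ n c a : ℂ) * D a b * (Gm n b c : ℂ) =
          ∑ c : Pn n, ∑ b : Pn n, (Wm δ n c a : ℂ) * D a b * (Gm n b c : ℂ) :=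
        fun a => Finset.sum_comm
      simp_rw [h3]
      exact Finset.sum_comm
    rw [h1]
    calc _ ≤ ∑ c : Pn n, ‖∑ a, ∑ b, (Wm δ n c a : ℂ) * D a b * (Gm n b c : ℂ)‖ :=
          norm_sum_le _ _
      _ ≤ ∑ c : Pn n, β * (nsq (fun a => Wm δ n c a) + nsq (fun b => Gm n b c)) / 2 := by
          apply Finset.sum_le_sum
          intro c _
          exact hD (fun a => Wm δ n c a) (fun b => Gm n b c)
      _ = β * ((2 + δ ^ 2) ^ n + 2 ^ n) / 2 := by
          rw [← Finset.sum_div, ← Finset.mul_sum, Finset.sum_add_distrib]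
          have e1 : ∑ c : Pn n, nsq (fun a => Wm δ n c a) = (2 + δ ^ 2) ^ n := sum_sq_W δ n
          have e2 : ∑ c : Pn n, nsq (fun b => Gm n b c) = 2 ^ n := by
            rw [← sum_sq_G n, Finset.sum_comm]
            rfl
          rw [e1, e2]
  -- bound of the diagonal
  have hdiag : ∀ a, ‖D a a‖ ≤ β := by
    intro a
    have h1 := hD (fun b => if b = a then 1 else 0) (fun b => if b = a then 1 else 0)
    have h2 : nsq (fun b : Pn n => if b = a then (1 : ℝ) else 0) = 1 := by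
      unfold nsq
      simp
    rw [h2] at h1
    have h3 : ∑ x, ∑ y, (((if x = a then (1 : ℝ) else 0 : ℝ)) : ℂ) * D x y *
        (((if y = a then (1 : ℝ) else 0 : ℝ)) : ℂ) = D a a := by
      rw [Finset.sum_eq_single a, Finset.sum_eq_single a]
      · simp
      · intro b _ hb; simp [hb]
      · intro h; exact absurd (Finset.mem_univ _) h
      · intro b _ hb
        simp [hb]
      · intro h; exact absurd (Finset.mem_univ _) h
    rw [h3] at h1
    linarith
  have hsumdiag : ‖((1 / 2 : ℂ) ^ n) * ∑ a, D a a‖ ≤ (1 / 2) ^ n * (4 ^ n * β) := by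
    rw [norm_mul, norm_pow]
    have e : ‖(1 / 2 : ℂ)‖ = 1 / 2 := by norm_num
    rw [e]
    apply mul_le_mul_of_nonneg_left _ (by positivity)
    refine (norm_sum_le _ _).trans ?_
    calc ∑ a : Pn n, ‖D a a‖ ≤ ∑ _a : Pn n, β := Finset.sum_le_sum (fun a _ => hdiag a)
      _ = 4 ^ n * β := by
          simp only [Finset.sum_const, Finset.card_univ, card_Pn, nsmul_eq_mul]
          push_cast
          ring
  have hT2 := T_pair_W δ n
  set S : ℝ := ∑ a : Pn n, ∑ b : Pn n, Tm n a b * Wm δ n b a with hS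
  have h5 : ((S : ℝ) : ℂ) = ∑ a, ∑ b, D a b * (Wm δ n b a : ℂ) -
      ((1 / 2 : ℂ) ^ n) * ∑ a, D a a := by
    rw [hpair]; ring
  have h6 : S ≤ β * ((2 + δ ^ 2) ^ n + 2 ^ n) / 2 + (1 / 2) ^ n * (4 ^ n * β) := by
    calc S ≤ |S| := le_abs_self S
      _ = ‖((S : ℝ) : ℂ)‖ := by rw [Complex.norm_real, Real.norm_eq_abs]
      _ ≤ ‖∑ a, ∑ b, D a b * (Wm δ n b a : ℂ)‖ + ‖((1 / 2 : ℂ) ^ n) * ∑ a, D a a‖ := by
          rw [h5]; exact norm_sub_le _ _
      _ ≤ _ := add_le_add hleft hsumdiag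
  have h7 : (1 / 2 : ℝ) ^ n * (4 ^ n * β) = 2 ^ n * β := by
    rw [← mul_assoc, ← mul_pow]; norm_num
  have h8 : (2 + δ ^ 2) ^ n = 2 ^ n * (1 + δ ^ 2 / 2) ^ n := by
    rw [← mul_pow]; congr 1; ring
  rw [h7, h8] at h6
  have h9 : n * δ * 2 ^ n ≤ (β * ((1 + δ ^ 2 / 2) ^ n + 3)) * 2 ^ n := by
    rw [← hT2]
    linarith
  exact le_of_mul_le_mul_right h9 (by positivity)

end Pool.Agent.Work.MP_79b32e_an
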