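import Mathlib
import Pool.Agent.Work.MP_79b32e_an.Corner
import Pool.Agent.Work.MP_79b32e_an.Lower

set_option autoImplicit false

open MeasureTheory

namespace Pool.Agent.Work.MP_79b32e_an

variable {H : Type*} [NormedAddCommGroup H] [InnerProductSpace ℂ H] [CompleteSpace H]

/-- The operator attached to the test matrix and an orthonormal family. -/
noncomputable def TH {n : ℕ} (u : Pn n → H) : H →L[ℂ] H :=
  ∑ a, ∑ b, (Tm n a b : ℂ) • InnerProductSpace.rankOne ℂ (u a) (u b)

omit [CompleteSpace H] in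
lemma TH_apply {n : ℕ} (u : Pn n → H) (x : H) :
    TH u x = ∑ a, ∑ b, ((Tm n a b : ℂ) * inner ℂ (u b) x) • u a := by
  unfold TH
  rw [sum_apply]
  apply Finset.sum_congr rfl
  intro a _
  rw [sum_apply]
  apply Finset.sum_congr rfl
  intro b _
  rw [smul_apply, InnerProductSpace.rankOne_apply, smul_smul]

lemma inner_TH {n : ℕ} {u : Pn n → H} (hu : Orthonormal ℂ u) (a b : Pn n) :
    inner ℂ (u a) (TH u (u b)) = (Tm n a b : ℂ) := by
  classical
  rw [TH_apply, inner_sum]
  rw [Finset.sum_eq_single a]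
  · rw [inner_sum, Finset.sum_eq_single b]
    · rw [inner_smul_right]
      have h1 : inner ℂ (u b) (u b) = (1 : ℂ) := by
        rw [orthonormal_iff_ite.mp hu]; simp
      have h2 : inner ℂ (u a) (u a) = (1 : ℂ) := by
        rw [orthonormal_iff_ite.mp hu]; simp
      rw [h1, h2]; ring
    · intro c _ hc
      rw [inner_smul_right]
      have h1 : inner ℂ (u c) (u b) = (0 : ℂ) := by
        rw [orthonormal_iff_ite.mp hu]; simp [hc]
      rw [h1]; ring
    · intro h; exact absurd (Finset.mem_univ _) h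
  · intro c _ hc
    rw [inner_sum]
    apply Finset.sum_eq_zero
    intro d _
    rw [inner_smul_right]
    have h1 : inner ℂ (u a) (u c) = (0 : ℂ) := by
      rw [orthonormal_iff_ite.mp hu]; simp [hc.symm]
    rw [h1]; ring
  · intro h; exact absurd (Finset.mem_univ _) h

/-- Upper bound of the corners. -/
lemma upper {n : ℕ} {u : Pn n → H} (hu : Orthonormal ℂ u) {P : H →L[ℂ] H}
    (hP : IsStarProjection P)
    (hcor : ∀ a b, ltP n a b → P (u b) = 0 ∨ P (u a) = u a) :
    ‖(1 - P) * TH u * P‖ ≤ 332 := by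
  have hsym := ContinuousLinearMap.isSelfAdjoint_iff_isSymmetric.mp hP.isSelfAdjoint
  have hQ : IsStarProjection (1 - P) := hP.one_sub
  have hsymQ := ContinuousLinearMap.isSelfAdjoint_iff_isSymmetric.mp hQ.isSelfAdjoint
  have key : ∀ f g : H, ‖inner ℂ g (((1 - P) * TH u * P) f)‖ ≤ 166 * (‖f‖ ^ 2 + ‖g‖ ^ 2) := by
    intro f g
    set x : Pn n → ℂ := fun b => inner ℂ (u b) (P f) with hx
    set z : Pn n → ℂ := fun a => inner ℂ (u a) ((1 - P) g) with hz
    have hC : Cor z x := by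
      intro a b hab
      rcases hcor a b hab with h1 | h1
      · left
        have h2 : inner ℂ (P (u b)) f = inner ℂ (u b) (P f) := hsym (u b) f
        simp only [hx]
        rw [← h2, h1, inner_zero_left]
      · right
        have h2 : inner ℂ ((1 - P) (u a)) g = inner ℂ (u a) ((1 - P) g) := hsymQ (u a) g
        simp only [hz]
        rw [← h2]
        have h3 : (1 - P) (u a) = 0 := by
          show u a - P (u a) = 0
          rw [h1, sub_self]
        rw [h3, inner_zero_left]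
    have h1 := corner_complex n z x hC
    have h2 : inner ℂ g (((1 - P) * TH u * P) f) =
        ∑ a, ∑ b, (starRingEnd ℂ) (z a) * (Tm n a b : ℂ) * x b := by
      have e1 : inner ℂ g (((1 - P) * TH u * P) f) = inner ℂ ((1 - P) g) (TH u (P f)) :=
        (hsymQ g (TH u (P f))).symm
      rw [e1, TH_apply, inner_sum]
      apply Finset.sum_congr rfl
      intro a _
      rw [inner_sum]
      apply Finset.sum_congr rfl
      intro b _
      rw [inner_smul_right]
      simp only [hx, hz]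
      rw [inner_conj_symm]
      ring
    rw [h2]
    refine h1.trans ?_
    have hxb : ∑ a, ‖x a‖ ^ 2 ≤ ‖f‖ ^ 2 := by
      refine (hu.sum_inner_products_le (P f) (s := Finset.univ)).trans ?_
      have : ‖P f‖ ≤ ‖f‖ := by
        calc ‖P f‖ ≤ ‖P‖ * ‖f‖ := P.le_opNorm f
          _ ≤ 1 * ‖f‖ := by
              gcongr
              exact hP.norm_le
          _ = ‖f‖ := one_mul _
      gcongr
    have hzb : ∑ a, ‖z a‖ ^ 2 ≤ ‖g‖ ^ 2 := by
      refine (hu.sum_inner_products_le ((1 - P) g) (s := Finset.univ)).trans ?_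
      have : ‖(1 - P) g‖ ≤ ‖g‖ := by
        calc ‖(1 - P) g‖ ≤ ‖1 - P‖ * ‖g‖ := (1 - P).le_opNorm g
          _ ≤ 1 * ‖g‖ := by
              gcongr
              exact hQ.norm_le
          _ = ‖g‖ := one_mul _
      gcongr
    linarith
  apply ContinuousLinearMap.opNorm_le_of_unit_norm (by norm_num)
  intro f hf
  set v := ((1 - P) * TH u * P) f with hv
  by_cases hv0 : v = 0
  · rw [hv0, norm_zero]; norm_num
  · have hvpos : 0 < ‖v‖ := norm_pos_iff.mpr hv0
    have h1 := key f (((‖v‖ : ℂ)⁻¹) • v)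
    rw [← hv, inner_smul_left] at h1
    have h2 : ‖((‖v‖ : ℂ)⁻¹) • v‖ = 1 := by
      rw [norm_smul, norm_inv, Complex.norm_real, norm_norm]
      field_simp
    have h3 : ‖(starRingEnd ℂ) ((‖v‖ : ℂ)⁻¹) * inner ℂ v v‖ = ‖v‖ := by
      have h4 : ‖(inner ℂ v v : ℂ)‖ = ‖v‖ ^ 2 := by
        rw [inner_self_eq_norm_sq_to_K, norm_pow]
        congr 1
        exact (RCLike.norm_ofReal (K := ℂ) ‖v‖).trans (abs_of_nonneg (norm_nonneg v))
      rw [norm_mul, RCLike.norm_conj, norm_inv, Complex.norm_real, norm_norm, h4]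
      field_simp
    rw [h3, h2, hf] at h1
    linarith

/-- Lower bound of the distance. -/
lemma dist_lower {N : ℕ} (hN : 0 < N) {u : Pn (N ^ 2) → H} (hu : Orthonormal ℂ u)
    {A : H →L[ℂ] H}
    (hA : ∀ a b, a ≠ b → ¬ ltP (N ^ 2) a b → inner ℂ (u a) (A (u b)) = 0) :
    (N : ℝ) ≤ 5 * ‖TH u - A‖ := by
  classical
  set R := TH u - A with hR
  have hNpos : (0 : ℝ) < N := by exact_mod_cast hN
  have hnorm : ∀ r : Pn (N ^ 2) → ℝ, ‖∑ a, (r a : ℂ) • u a‖ ^ 2 = nsq r := by
    intro r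
    have h1 := hu.inner_sum (fun a => (r a : ℂ)) (fun a => (r a : ℂ)) Finset.univ
    rw [inner_self_eq_norm_sq_to_K] at h1
    have h2 : ∑ i, (starRingEnd ℂ) ((r i : ℂ)) * (r i : ℂ) = ((nsq r : ℝ) : ℂ) := by
      unfold nsq
      push_cast
      apply Finset.sum_congr rfl
      intro i _
      rw [Complex.conj_ofReal]; ring
    rw [h2] at h1
    have h3 : ((‖∑ a, (r a : ℂ) • u a‖ ^ 2 : ℝ) : ℂ) = ((nsq r : ℝ) : ℂ) := by
      rw [← h1, Complex.ofReal_pow]
      rfl
    exact Complex.ofReal_injective h3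
  have h1 := lower (N ^ 2) (1 / N) ‖R‖ (fun a b => inner ℂ (u a) (R (u b))) (by
    intro r c
    have e1 : ∑ a, ∑ b, (r a : ℂ) * inner ℂ (u a) (R (u b)) * (c b : ℂ) =
        inner ℂ (∑ a, (r a : ℂ) • u a) (R (∑ b, (c b : ℂ) • u b)) := by
      rw [sum_inner]
      apply Finset.sum_congr rfl
      intro a _
      rw [map_sum, inner_sum]
      apply Finset.sum_congr rfl
      intro b _
      rw [inner_smul_left, map_smul, inner_smul_right, Complex.conj_ofReal]
      ring
    rw [e1]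
    calc _ ≤ ‖∑ a, (r a : ℂ) • u a‖ * ‖R (∑ b, (c b : ℂ) • u b)‖ := norm_inner_le_norm _ _
      _ ≤ ‖∑ a, (r a : ℂ) • u a‖ * (‖R‖ * ‖∑ b, (c b : ℂ) • u b‖) := by
          gcongr
          exact R.le_opNorm _
      _ ≤ ‖R‖ * (‖∑ a, (r a : ℂ) • u a‖ ^ 2 + ‖∑ b, (c b : ℂ) • u b‖ ^ 2) / 2 := by
          nlinarith [mul_nonneg (norm_nonneg R)
            (sq_nonneg (‖∑ a, (r a : ℂ) • u a‖ - ‖∑ b, (c b : ℂ) • u b‖))]
      _ = _ := by rw [hnorm, hnorm])
    (by
      intro a b hab hlt
      show inner ℂ (u a) (R (u b)) = _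
      rw [hR, sub_apply, inner_sub_right, inner_TH hu, hA a b hab hlt,
        sub_zero])
  have h2 : (1 + (1 / (N : ℝ)) ^ 2 / 2) ^ (N ^ 2) ≤ 2 := by
    calc (1 + (1 / (N : ℝ)) ^ 2 / 2) ^ (N ^ 2)
        ≤ (Real.exp ((1 / (N : ℝ)) ^ 2 / 2)) ^ (N ^ 2) := by
          gcongr
          rw [add_comm]
          exact Real.add_one_le_exp _
      _ = Real.exp (1 / 2) := by
          rw [← Real.exp_nat_mul]
          congr 1
          push_cast
          field_simp
      _ ≤ 2 := by
          have h3 : Real.exp (1 / 2) ^ 2 ≤ 2 ^ 2 := by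
            rw [← Real.exp_nat_mul]
            have : ((2 : ℕ) : ℝ) * (1 / 2) = 1 := by norm_num
            rw [this]
            have := Real.exp_one_lt_d9
            linarith
          exact le_of_sq_le_sq h3 (by norm_num)
  have h3 : ((N ^ 2 : ℕ) : ℝ) * (1 / N) = N := by
    push_cast
    field_simp
  rw [h3] at h1
  have h4 : 0 ≤ ‖R‖ := norm_nonneg _
  nlinarith

end Pool.Agent.Work.MP_79b32e_an
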