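import Mathlib
import Pool.Agent.Work.MP_79b32e_an.Poset

set_option autoImplicit false

namespace Pool.Agent.Work.MP_79b32e_an

/-- First coordinate of the box of a point of `Pn n`. -/
def X : (n : ℕ) → Pn n → ℕ
  | 0, _ => 0
  | n + 1, (α, m, p) => (2 * (if α then 1 else 0) + (if m then 1 else 0)) * 4 ^ n + X n p

/-- Second coordinate of the box of a point of `Pn n`. -/
def Y : (n : ℕ) → Pn n → ℕ
  | 0, _ => 0
  | n + 1, (α, m, p) => (2 * (if α then 0 else 1) + (if m then 1 else 0)) * 4 ^ n + Y n p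

lemma X_mk {n : ℕ} (α m : Bool) (p : Pn n) :
    X (n + 1) (mk α m p) =
      (2 * (if α then 1 else 0) + (if m then 1 else 0)) * 4 ^ n + X n p := rfl

lemma Y_mk {n : ℕ} (α m : Bool) (p : Pn n) :
    Y (n + 1) (mk α m p) =
      (2 * (if α then 0 else 1) + (if m then 1 else 0)) * 4 ^ n + Y n p := rfl

lemma ltP_mk {n : ℕ} (α m β l : Bool) (p q : Pn n) :
    ltP (n + 1) (mk α m p) (mk β l q) ↔
      α = β ∧ ((m = false ∧ l = true) ∨ (m = l ∧ ltP n p q)) := Iff.rfl

lemma mk_inj {n : ℕ} (α m β l : Bool) (p q : Pn n) :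
    mk α m p = mk β l q ↔ α = β ∧ m = l ∧ p = q := by
  constructor
  · intro h
    have h1 : (α, m, p) = (β, l, q) := h
    simpa using h1
  · rintro ⟨rfl, rfl, rfl⟩; rfl

lemma exists_mk {n : ℕ} (a : Pn (n + 1)) : ∃ α m p, a = mk α m p := ⟨a.1, a.2.1, a.2.2, rfl⟩

lemma X_lt : ∀ (n : ℕ) (a : Pn n), X n a < 4 ^ n
  | 0, _ => by simp [X]
  | n + 1, a => by
    obtain ⟨α, m, p, rfl⟩ := exists_mk a
    have h := X_lt n p
    rw [X_mk, pow_succ]
    have h4 : 0 < 4 ^ n := by positivity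
    cases α <;> cases m <;> simp <;> omega

lemma Y_lt : ∀ (n : ℕ) (a : Pn n), Y n a < 4 ^ n
  | 0, _ => by simp [Y]
  | n + 1, a => by
    obtain ⟨α, m, p, rfl⟩ := exists_mk a
    have h := Y_lt n p
    rw [Y_mk, pow_succ]
    have h4 : 0 < 4 ^ n := by positivity
    cases α <;> cases m <;> simp <;> omega

lemma lt_of_ltP : ∀ (n : ℕ) (a b : Pn n), ltP n a b → X n a < X n b ∧ Y n a < Y n b
  | 0, _, _ => fun h => h.elim
  | n + 1, a, b => by
    obtain ⟨α, m, p, rfl⟩ := exists_mk a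
    obtain ⟨β, l, q, rfl⟩ := exists_mk b
    intro h
    rw [ltP_mk] at h
    obtain ⟨rfl, h⟩ := h
    have h1 := X_lt n p
    have h2 := Y_lt n p
    rw [X_mk, X_mk, Y_mk, Y_mk]
    rcases h with ⟨rfl, rfl⟩ | ⟨rfl, h⟩
    · cases α <;> simp <;> constructor <;> omega
    · have h3 := lt_of_ltP n p q h
      omega

lemma not_ltP : ∀ (n : ℕ) (a b : Pn n), a ≠ b → ¬ ltP n a b → X n b < X n a ∨ Y n b < Y n a
  | 0, a, b => fun h => (h (Subsingleton.elim (α := Unit) a b)).elim
  | n + 1, a, b => by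
    obtain ⟨α, m, p, rfl⟩ := exists_mk a
    obtain ⟨β, l, q, rfl⟩ := exists_mk b
    intro hne h
    rw [ltP_mk] at h
    rw [Ne, mk_inj] at hne
    have h1 := X_lt n p
    have h2 := Y_lt n p
    have h3 := X_lt n q
    have h4 := Y_lt n q
    rw [X_mk, X_mk, Y_mk, Y_mk]
    by_cases hα : α = β
    · subst hα
      by_cases hm : m = l
      · subst hm
        have h5 : p ≠ q := fun hh => hne ⟨rfl, rfl, hh⟩
        have h6 : ¬ ltP n p q := fun hh => h ⟨rfl, Or.inr ⟨rfl, hh⟩⟩
        have h7 := not_ltP n p q h5 h6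
        omega
      · cases m <;> cases l
        · exact absurd rfl hm
        · exact absurd ⟨rfl, Or.inl ⟨rfl, rfl⟩⟩ h
        · left; cases α <;> simp <;> omega
        · exact absurd rfl hm
    · cases α <;> cases β
      · exact absurd rfl hα
      · right; cases m <;> cases l <;> simp <;> omega
      · left; cases m <;> cases l <;> simp <;> omega
      · exact absurd rfl hα

end Pool.Agent.Work.MP_79b32e_an
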