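import Mathlib
import Pool.Agent.Work.MP_79b32e_an.Defs

set_option autoImplicit false

open MeasureTheory

namespace Pool.Agent.Work.MP_79b32e_an

variable {H : Type*} [NormedAddCommGroup H] [InnerProductSpace ℂ H] [CompleteSpace H]

lemma eq_of_forall_eps {x y : H} {C : ℝ} (h : ∀ ε : ℝ, 0 < ε → ‖x - y‖ ≤ C * ε) : x = y := by
  rw [← sub_eq_zero, ← norm_le_zero_iff]
  by_contra hcon
  push Not at hcon
  rcases le_or_gt C 0 with hC | hC
  · have := h 1 one_pos
    linarith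
  · have := h (‖x - y‖ / (2 * C)) (by positivity)
    have h2 : C * (‖x - y‖ / (2 * C)) = ‖x - y‖ / 2 := by field_simp
    rw [h2] at this
    linarith

/-- Strong limits of star projections are star projections. -/
lemma isStarProjection_of_approx {Q : H →L[ℂ] H}
    (h : ∀ (F : Finset H) (ε : ℝ), 0 < ε →
      ∃ P : H →L[ℂ] H, IsStarProjection P ∧ ∀ x ∈ F, ‖P x - Q x‖ < ε) :
    IsStarProjection Q := by
  classical
  constructor
  · show Q * Q = Q
    ext x
    apply eq_of_forall_eps (C := 3)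
    intro ε hε
    obtain ⟨P, hP, hPF⟩ := h {x, Q x} ε hε
    have h1 := hPF x (by simp)
    have h2 := hPF (Q x) (by simp)
    have h3 : P (P x) = P x := by
      have := hP.isIdempotentElem
      have h4 := congrArg (fun T : H →L[ℂ] H => T x) this
      simpa using h4
    have h5 : ‖P (Q x) - P x‖ ≤ ε := by
      rw [← h3, ← map_sub]
      calc ‖P (Q x - P x)‖ ≤ ‖P‖ * ‖Q x - P x‖ := P.le_opNorm _
        _ ≤ 1 * ‖Q x - P x‖ := by
            gcongr
            exact hP.norm_le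
        _ ≤ ε := by rw [one_mul, norm_sub_rev]; exact h1.le
    show ‖Q (Q x) - Q x‖ ≤ 3 * ε
    calc ‖Q (Q x) - Q x‖ = ‖-(P (Q x) - Q (Q x)) + (P (Q x) - P x) + (P x - Q x)‖ := by
          congr 1; abel
      _ ≤ ‖-(P (Q x) - Q (Q x))‖ + ‖P (Q x) - P x‖ + ‖P x - Q x‖ := norm_add₃_le
      _ ≤ 3 * ε := by rw [norm_neg]; linarith
  · rw [ContinuousLinearMap.isSelfAdjoint_iff_isSymmetric]
    intro x y
    apply eq_of_forall_eps (C := ‖x‖ + ‖y‖)
    intro ε hε
    obtain ⟨P, hP, hPF⟩ := h {x, y} ε hε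
    have h1 := hPF x (by simp)
    have h2 := hPF y (by simp)
    have h3 := (ContinuousLinearMap.isSelfAdjoint_iff_isSymmetric.mp hP.isSelfAdjoint) x y
    show ‖inner ℂ (Q x) y - inner ℂ x (Q y)‖ ≤ (‖x‖ + ‖y‖) * ε
    have h4 : inner ℂ (Q x) y - inner ℂ x (Q y) =
        -(inner ℂ (P x - Q x) y) + inner ℂ x (P y - Q y) := by
      rw [inner_sub_left, inner_sub_right]
      have : inner ℂ (P x) y = inner ℂ x (P y) := h3
      rw [this]; ring
    rw [h4]
    calc ‖-(inner ℂ (P x - Q x) y) + inner ℂ x (P y - Q y)‖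
        ≤ ‖-(inner ℂ (P x - Q x) y)‖ + ‖inner ℂ x (P y - Q y)‖ := norm_add_le _ _
      _ ≤ ‖P x - Q x‖ * ‖y‖ + ‖x‖ * ‖P y - Q y‖ := by
          rw [norm_neg]
          exact add_le_add (norm_inner_le_norm _ _) (norm_inner_le_norm _ _)
      _ ≤ ε * ‖y‖ + ‖x‖ * ε := by gcongr
      _ = _ := by ring

lemma commute_of_approx {Q R : H →L[ℂ] H}
    (h : ∀ (F : Finset H) (ε : ℝ), 0 < ε →
      ∃ P : H →L[ℂ] H, R * P = P * R ∧ ∀ x ∈ F, ‖P x - Q x‖ < ε) :
    R * Q = Q * R := by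
  classical
  ext x
  apply eq_of_forall_eps (C := ‖R‖ + 1)
  intro ε hε
  obtain ⟨P, hP, hPF⟩ := h {x, R x} ε hε
  have h1 := hPF x (by simp)
  have h2 := hPF (R x) (by simp)
  have h3 : R (P x) = P (R x) := by
    have h4 := congrArg (fun T : H →L[ℂ] H => T x) hP
    simpa using h4
  show ‖R (Q x) - Q (R x)‖ ≤ (‖R‖ + 1) * ε
  have h4 : R (Q x) - Q (R x) = -(R (P x - Q x)) + (P (R x) - Q (R x)) := by
    rw [map_sub, h3]; abel
  rw [h4]
  calc _ ≤ ‖-(R (P x - Q x))‖ + ‖P (R x) - Q (R x)‖ := norm_add_le _ _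
    _ ≤ ‖R‖ * ‖P x - Q x‖ + ε := by
        rw [norm_neg]
        exact add_le_add (R.le_opNorm _) h2.le
    _ ≤ ‖R‖ * ε + ε := by gcongr
    _ = _ := by ring

lemma invariant_of_approx {Q A : H →L[ℂ] H}
    (h : ∀ (F : Finset H) (ε : ℝ), 0 < ε →
      ∃ P : H →L[ℂ] H, (IsStarProjection P ∧ A * P = P * A * P) ∧ ∀ x ∈ F, ‖P x - Q x‖ < ε) :
    A * Q = Q * A * Q := by
  classical
  ext x
  apply eq_of_forall_eps (C := 2 * ‖A‖ + 1)
  intro ε hε
  obtain ⟨P, ⟨hP1, hP2⟩, hPF⟩ := h {x, A (Q x)} ε hε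
  have h1 := hPF x (by simp)
  have h2 := hPF (A (Q x)) (by simp)
  have h3 : A (P x) = P (A (P x)) := by
    have h4 := congrArg (fun T : H →L[ℂ] H => T x) hP2
    simpa using h4
  show ‖A (Q x) - Q (A (Q x))‖ ≤ (2 * ‖A‖ + 1) * ε
  have h4 : A (Q x) - Q (A (Q x)) =
      -(A (P x - Q x)) + P (A (P x - Q x)) + (P (A (Q x)) - Q (A (Q x))) := by
    rw [map_sub, map_sub, ← h3]; abel
  rw [h4]
  have h5 : ‖A (P x - Q x)‖ ≤ ‖A‖ * ε := by
    calc _ ≤ ‖A‖ * ‖P x - Q x‖ := A.le_opNorm _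
      _ ≤ _ := by gcongr
  calc _ ≤ ‖-(A (P x - Q x))‖ + ‖P (A (P x - Q x))‖ + ‖P (A (Q x)) - Q (A (Q x))‖ :=
        norm_add₃_le
    _ ≤ ‖A‖ * ε + ‖A‖ * ε + ε := by
        rw [norm_neg]
        refine add_le_add (add_le_add h5 ?_) h2.le
        calc _ ≤ ‖P‖ * ‖A (P x - Q x)‖ := P.le_opNorm _
          _ ≤ 1 * (‖A‖ * ε) := by
              gcongr
              exact hP1.norm_le
          _ = _ := one_mul _
    _ = _ := by ring

/-- The star projections in the bicommutant of `S` which are invariant under `A`. -/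
def bigCSL (S : Set (H →L[ℂ] H)) (A : H →L[ℂ] H) : Set (H →L[ℂ] H) :=
  {P | IsStarProjection P ∧ (∀ R : H →L[ℂ] H, (∀ Q ∈ S, R * Q = Q * R) → R * P = P * R) ∧
    A * P = P * A * P}

lemma isCSL_bigCSL {S : Set (H →L[ℂ] H)} (hcomm : ∀ P ∈ S, ∀ Q ∈ S, P * Q = Q * P)
    (A : H →L[ℂ] H) : IsCSL (bigCSL S A) := by
  have hc : ∀ P ∈ bigCSL S A, ∀ Q ∈ bigCSL S A, P * Q = Q * P := by
    intro P hP Q hQ
    symm
    apply hP.2.1
    intro R hR
    symm
    apply hQ.2.1
    intro T hT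
    exact hcomm R hR T hT
  refine ⟨⟨fun P hP => hP.1, hc, ?_, ?_, ?_, ?_⟩, ?_⟩
  · exact ⟨IsStarProjection.zero _, fun R _ => by simp, by simp⟩
  · exact ⟨IsStarProjection.one _, fun R _ => by simp, by simp⟩
  · intro P hP Q hQ
    refine ⟨hP.1.mul hQ.1 (hc P hP Q hQ), ?_, ?_⟩
    · intro R hR
      rw [← mul_assoc, hP.2.1 R hR, mul_assoc, hQ.2.1 R hR, mul_assoc]
    · have h1 := hP.2.2
      have h2 := hQ.2.2
      have h3 := hc P hP Q hQ
      have e1 : A * (P * Q) = P * (A * (P * Q)) := by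
        calc A * (P * Q) = (A * P) * Q := by rw [mul_assoc]
          _ = (P * A * P) * Q := by rw [h1]
          _ = P * (A * (P * Q)) := by simp only [mul_assoc]
      have e2 : A * (P * Q) = Q * (A * (P * Q)) := by
        calc A * (P * Q) = (A * Q) * P := by rw [h3, mul_assoc]
          _ = (Q * A * Q) * P := by rw [← h2]
          _ = Q * (A * (P * Q)) := by rw [h3]; simp only [mul_assoc]
      calc A * (P * Q) = P * (A * (P * Q)) := e1
        _ = P * (Q * (A * (P * Q))) := by rw [← e2]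
        _ = P * Q * A * (P * Q) := by simp only [mul_assoc]
  · intro P hP Q hQ
    have h1 := hP.2.2
    have h2 := hQ.2.2
    have h3 := hc P hP Q hQ
    have hPP : P * P = P := hP.1.isIdempotentElem
    have hQQ : Q * Q = Q := hQ.1.isIdempotentElem
    refine ⟨IsStarProjection.add_sub_mul_of_commute h3 hP.1 hQ.1, ?_, ?_⟩
    · intro R hR
      rw [mul_sub, mul_add, sub_mul, add_mul, hP.2.1 R hR, hQ.2.1 R hR, ← mul_assoc,
        hP.2.1 R hR, mul_assoc P R Q, hQ.2.1 R hR, mul_assoc]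
    · -- invariance of the join
      set J := P + Q - P * Q with hJ
      have hJP : J * P = P := by
        rw [hJ, sub_mul, add_mul, hPP, mul_assoc, ← h3, ← mul_assoc, hPP]; abel
      have hJQ : J * Q = Q := by
        rw [hJ, sub_mul, add_mul, hQQ, mul_assoc, hQQ]; abel
      have e1 : A * P = J * (A * P) := by
        calc A * P = P * A * P := h1
          _ = (J * P) * A * P := by rw [hJP]
          _ = J * (P * A * P) := by simp only [mul_assoc]
          _ = _ := by rw [← h1]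
      have e2 : A * Q = J * (A * Q) := by
        calc A * Q = Q * A * Q := h2
          _ = (J * Q) * A * Q := by rw [hJQ]
          _ = J * (Q * A * Q) := by simp only [mul_assoc]
          _ = _ := by rw [← h2]
      have e3 : A * J = J * (A * J) := by
        have : A * J = A * P + A * Q - (A * P) * Q := by
          rw [hJ, mul_sub, mul_add, mul_assoc]
        rw [this, mul_sub, mul_add, ← e1, ← e2, ← mul_assoc J (A * P) Q, ← e1]
      rw [mul_assoc]
      exact e3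
  · intro Q hQ
    have hQ1 : IsStarProjection Q := by
      apply isStarProjection_of_approx
      intro F ε hε
      obtain ⟨P, hP, hPF⟩ := hQ F ε hε
      exact ⟨P, hP.1, hPF⟩
    refine ⟨hQ1, ?_, ?_⟩
    · intro R hR
      apply commute_of_approx
      intro F ε hε
      obtain ⟨P, hP, hPF⟩ := hQ F ε hε
      exact ⟨P, hP.2.1 R hR, hPF⟩
    · apply invariant_of_approx
      intro F ε hε
      obtain ⟨P, hP, hPF⟩ := hQ F ε hε
      exact ⟨P, ⟨hP.1, hP.2.2⟩, hPF⟩

/-- Membership in the algebra of a generated CSL can be tested on generators. -/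
lemma mem_Alg_generated {S : Set (H →L[ℂ] H)} (hproj : ∀ P ∈ S, IsStarProjection P)
    (hcomm : ∀ P ∈ S, ∀ Q ∈ S, P * Q = Q * P) {A : H →L[ℂ] H}
    (hA : ∀ P ∈ S, A * P = P * A * P) : A ∈ AlgOf (generatedCSL S) := by
  intro P hP
  have h1 := hP (bigCSL S A) (isCSL_bigCSL hcomm A) (by
    intro Q hQ
    exact ⟨hproj Q hQ, fun R hR => hR Q hQ, hA Q hQ⟩)
  exact h1.2.2

lemma subset_generated (S : Set (H →L[ℂ] H)) : S ⊆ generatedCSL S := by
  intro P hP L _ hSL
  exact hSL hP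

/-- The generated CSL is a CSL. -/
lemma isCSL_generated {S : Set (H →L[ℂ] H)} (hproj : ∀ P ∈ S, IsStarProjection P)
    (hcomm : ∀ P ∈ S, ∀ Q ∈ S, P * Q = Q * P) : IsCSL (generatedCSL S) := by
  have hsub : generatedCSL S ⊆ bigCSL S 0 := by
    intro P hP
    exact hP (bigCSL S 0) (isCSL_bigCSL hcomm 0) (by
      intro Q hQ
      exact ⟨hproj Q hQ, fun R hR => hR Q hQ, by simp⟩)
  have hb := isCSL_bigCSL hcomm (0 : H →L[ℂ] H)
  refine ⟨⟨fun P hP => hb.lattice.proj P (hsub hP),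
    fun P hP Q hQ => hb.lattice.comm P (hsub hP) Q (hsub hQ), ?_, ?_, ?_, ?_⟩, ?_⟩
  · intro L hL _; exact hL.lattice.zero_mem
  · intro L hL _; exact hL.lattice.one_mem
  · intro P hP Q hQ L hL hSL; exact hL.lattice.inf_mem P (hP L hL hSL) Q (hQ L hL hSL)
  · intro P hP Q hQ L hL hSL; exact hL.lattice.sup_mem P (hP L hL hSL) Q (hQ L hL hSL)
  · intro Q hQ L hL hSL
    apply hL.closed
    intro F ε hε
    obtain ⟨P, hP, hPF⟩ := hQ F ε hε
    exact ⟨P, hP L hL hSL, hPF⟩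

end Pool.Agent.Work.MP_79b32e_an
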