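import Mathlib
import Pool.Agent.Work.MP_79b32e_an.Abstract
import Pool.Agent.Work.MP_79b32e_an.OpTheory
import Pool.Agent.Work.MP_79b32e_an.Cut
import Pool.Agent.Work.MP_79b32e_an.Boxes

set_option autoImplicit false

open MeasureTheory

namespace Pool.Agent.Work.MP_79b32e_an

/-- The box attached to a point of `Pn n`. -/
def box {n : ℕ} (a : Pn n) : Set (ℝ × ℝ) :=
  Set.Ico ((X n a : ℝ) / 4 ^ n) (((X n a : ℝ) + 1) / 4 ^ n) ×ˢ
    Set.Ico ((Y n a : ℝ) / 4 ^ n) (((Y n a : ℝ) + 1) / 4 ^ n)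

lemma meas_box {n : ℕ} (a : Pn n) : MeasurableSet (box a) :=
  measurableSet_Ico.prod measurableSet_Ico

lemma box_subset {n : ℕ} (a : Pn n) : box a ⊆ Set.Icc 0 1 ×ˢ Set.Icc 0 1 := by
  rintro ⟨x, y⟩ ⟨hx, hy⟩
  have h4 : (0 : ℝ) < 4 ^ n := by positivity
  have h1 : (X n a : ℝ) + 1 ≤ 4 ^ n := by exact_mod_cast X_lt n a
  have h2 : (Y n a : ℝ) + 1 ≤ 4 ^ n := by exact_mod_cast Y_lt n a
  have h3 : ((X n a : ℝ) + 1) / 4 ^ n ≤ 1 := (div_le_one h4).mpr h1
  have h5 : ((Y n a : ℝ) + 1) / 4 ^ n ≤ 1 := (div_le_one h4).mpr h2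
  have h6 : 0 ≤ (X n a : ℝ) / 4 ^ n := by positivity
  have h7 : 0 ≤ (Y n a : ℝ) / 4 ^ n := by positivity
  simp only at hx hy
  exact ⟨⟨h6.trans hx.1, hx.2.le.trans h3⟩, ⟨h7.trans hy.1, hy.2.le.trans h5⟩⟩

lemma sq_box {n : ℕ} (a : Pn n) : sq (box a) = ENNReal.ofReal ((1 / 4 ^ n) ^ 2) := by
  unfold sq
  rw [Measure.restrict_apply (meas_box a), Set.inter_eq_left.mpr (box_subset a)]
  unfold box
  rw [Measure.volume_eq_prod, Measure.prod_prod, Real.volume_Ico, Real.volume_Ico,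
    ← ENNReal.ofReal_mul]
  · congr 1
    ring
  · have : ((X n a : ℝ) + 1) / 4 ^ n - (X n a : ℝ) / 4 ^ n = 1 / 4 ^ n := by ring
    rw [this]; positivity

lemma sq_box_ne_top {n : ℕ} (a : Pn n) : sq (box a) ≠ ⊤ := by
  rw [sq_box]; exact ENNReal.ofReal_ne_top

/-- The normalised indicator of a box. -/
noncomputable def ub {n : ℕ} (a : Pn n) : Hsq :=
  indicatorConstLp 2 (meas_box a) (sq_box_ne_top a) ((4 : ℂ) ^ n)

lemma box_disj {n : ℕ} {a b : Pn n} (hab : a ≠ b) : box a ∩ box b = ∅ := by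
  have h4 : (0 : ℝ) < 4 ^ n := by positivity
  have key : X n a ≠ X n b ∨ Y n a ≠ Y n b := by
    by_cases h : ltP n a b
    · have := lt_of_ltP n a b h
      left; omega
    · have := not_ltP n a b hab h
      omega
  rw [Set.eq_empty_iff_forall_notMem]
  rintro ⟨x, y⟩ ⟨⟨h1, h2⟩, ⟨h3, h5⟩⟩
  simp only [Set.mem_Ico] at h1 h2 h3 h5
  rw [div_le_iff₀ h4, lt_div_iff₀ h4] at h1 h2 h3 h5
  have e1 : (X n a : ℝ) < (X n b : ℝ) + 1 := by linarith
  have e2 : (X n b : ℝ) < (X n a : ℝ) + 1 := by linarith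
  have e3 : (Y n a : ℝ) < (Y n b : ℝ) + 1 := by linarith
  have e4 : (Y n b : ℝ) < (Y n a : ℝ) + 1 := by linarith
  have f1 : X n a < X n b + 1 := by exact_mod_cast e1
  have f2 : X n b < X n a + 1 := by exact_mod_cast e2
  have f3 : Y n a < Y n b + 1 := by exact_mod_cast e3
  have f4 : Y n b < Y n a + 1 := by exact_mod_cast e4
  omega

lemma ub_orthonormal (n : ℕ) : Orthonormal ℂ (fun a : Pn n => ub a) := by
  rw [orthonormal_iff_ite]
  intro a b
  show inner ℂ (ub a) (ub b) = _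
  unfold ub
  rw [L2.inner_indicatorConstLp_indicatorConstLp (meas_box a) (meas_box b) (sq_box_ne_top a)
    (sq_box_ne_top b)]
  by_cases hab : a = b
  · subst hab
    rw [Set.inter_self, if_pos rfl, Measure.real, sq_box,
      ENNReal.toReal_ofReal (by positivity)]
    have h4 : ((4 : ℝ) ^ n) ≠ 0 := by positivity
    simp only [RCLike.inner_apply, map_pow]
    rw [Complex.real_smul]
    have : (starRingEnd ℂ) (4 : ℂ) = 4 := by
      have := Complex.conj_ofReal 4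
      push_cast at this
      exact this
    rw [this]
    push_cast
    field_simp
  · rw [box_disj hab, if_neg hab]
    simp

lemma ub_coe {n : ℕ} (a : Pn n) :
    (ub a : ℝ × ℝ → ℂ) =ᵐ[sq] (box a).indicator (fun _ => (4 : ℂ) ^ n) :=
  indicatorConstLp_coeFn

lemma cut_ub_self {n : ℕ} (a : Pn n) {S : Set (ℝ × ℝ)} (hS : MeasurableSet S)
    (h : box a ⊆ S) : cut S hS (ub a) = ub a := by
  rw [cut_eq_self_iff]
  filter_upwards [ub_coe a] with z h1 hz
  rw [h1, Set.indicator_of_notMem (fun h2 => hz (h h2))]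

lemma cut_ub_zero {n : ℕ} (a : Pn n) {S : Set (ℝ × ℝ)} (hS : MeasurableSet S)
    (h : ∀ z ∈ box a, z ∉ S) : cut S hS (ub a) = 0 := by
  rw [cut_eq_zero_iff]
  filter_upwards [ub_coe a] with z h1 hz
  rw [h1, Set.indicator_of_notMem (fun h2 => h z h2 hz)]

lemma box_subset_stripX {n : ℕ} {a : Pn n} {t : ℝ} (h : ((X n a : ℝ) + 1) / 4 ^ n ≤ t) :
    box a ⊆ stripX t := by
  rintro ⟨x, y⟩ ⟨hx, _⟩
  exact lt_of_lt_of_le hx.2 h

lemma box_disj_stripX {n : ℕ} {a : Pn n} {t : ℝ} (h : t ≤ (X n a : ℝ) / 4 ^ n) :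
    ∀ z ∈ box a, z ∉ stripX t := by
  rintro ⟨x, y⟩ ⟨hx, _⟩ h2
  have h3 : x < t := h2
  have h4 := hx.1
  simp only at h4
  linarith

lemma box_subset_stripY {n : ℕ} {a : Pn n} {t : ℝ} (h : ((Y n a : ℝ) + 1) / 4 ^ n ≤ t) :
    box a ⊆ stripY t := by
  rintro ⟨x, y⟩ ⟨_, hx⟩
  exact lt_of_lt_of_le hx.2 h

lemma box_disj_stripY {n : ℕ} {a : Pn n} {t : ℝ} (h : t ≤ (Y n a : ℝ) / 4 ^ n) :
    ∀ z ∈ box a, z ∉ stripY t := by
  rintro ⟨x, y⟩ ⟨_, hx⟩ h2
  have h3 : y < t := h2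
  have h4 := hx.1
  simp only at h4
  linarith

/-- Elements of `Alg` have no entries against the order. -/
lemma inner_Alg_zero {A : Hsq →L[ℂ] Hsq} (hA : A ∈ AlgOf volterraTensor) {n : ℕ} {a b : Pn n}
    (hab : a ≠ b) (hlt : ¬ ltP n a b) : inner ℂ (ub a) (A (ub b)) = 0 := by
  have h4 : (0 : ℝ) < 4 ^ n := by positivity
  have gen : ∀ P ∈ projections volterraLeft ∪ projections volterraRight, P (ub b) = ub b → P (ub a) = 0 →
      inner ℂ (ub a) (A (ub b)) = 0 := by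
    intro P hP h1 h2
    have h3 : A * P = P * A * P := hA P (subset_generated _ hP)
    have h5 : A (P (ub b)) = P (A (P (ub b))) := congrArg (fun T : Hsq →L[ℂ] Hsq => T (ub b)) h3
    rw [h1] at h5
    have hsym := ContinuousLinearMap.isSelfAdjoint_iff_isSymmetric.mp (gen_proj P hP).isSelfAdjoint
    have h6 : inner ℂ (P (ub a)) (A (ub b)) = inner ℂ (ub a) (P (A (ub b))) := hsym _ _
    rw [h5, ← h6, h2, inner_zero_left]
  rcases not_ltP n a b hab hlt with h | h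
  · set t : ℝ := ((X n b : ℝ) + 1) / 4 ^ n with ht
    have ht0 : 0 ≤ t := by positivity
    have h1 : (X n b : ℝ) + 1 ≤ X n a := by exact_mod_cast h
    have ht1 : t ≤ (X n a : ℝ) / 4 ^ n := by
      rw [ht]; gcongr
    have ht2 : t ≤ 1 := by
      have h2 : (X n a : ℝ) < 4 ^ n := by exact_mod_cast X_lt n a
      rw [ht, div_le_one h4]; linarith
    exact gen _ (Or.inl (mem_volterraLeft.mpr ⟨t, ⟨ht0, ht2⟩, rfl⟩))
      (cut_ub_self b _ (box_subset_stripX le_rfl)) (cut_ub_zero a _ (box_disj_stripX ht1))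
  · set t : ℝ := ((Y n b : ℝ) + 1) / 4 ^ n with ht
    have ht0 : 0 ≤ t := by positivity
    have h1 : (Y n b : ℝ) + 1 ≤ Y n a := by exact_mod_cast h
    have ht1 : t ≤ (Y n a : ℝ) / 4 ^ n := by
      rw [ht]; gcongr
    have ht2 : t ≤ 1 := by
      have h2 : (Y n a : ℝ) < 4 ^ n := by exact_mod_cast Y_lt n a
      rw [ht, div_le_one h4]; linarith
    exact gen _ (Or.inr (mem_volterraRight.mpr ⟨t, ⟨ht0, ht2⟩, rfl⟩))
      (cut_ub_self b _ (box_subset_stripY le_rfl)) (cut_ub_zero a _ (box_disj_stripY ht1))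

lemma cut_mem_Alg (S : Set (ℝ × ℝ)) (hS : MeasurableSet S) : cut S hS ∈ AlgOf volterraTensor := by
  apply mem_Alg_generated gen_proj gen_comm
  intro P hP
  obtain ⟨T, hT, rfl⟩ := gen_is_cut hP
  rw [cut_mul, cut_mul, cut_mul]
  apply cut_congr
  ext z
  simp only [Set.mem_inter_iff]
  tauto

/-- Elements of `Lat` commute with all cuts. -/
lemma Lat_comm {P : Hsq →L[ℂ] Hsq} (hP : P ∈ LatOf (AlgOf volterraTensor))
    (S : Set (ℝ × ℝ)) (hS : MeasurableSet S) : cut S hS * P = P * cut S hS := by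
  have h1 := hP.2 _ (cut_mem_Alg S hS)
  have h2 : star (cut S hS * P) = star (P * cut S hS * P) := by rw [h1]
  rw [star_mul, star_mul, star_mul, hP.1.isSelfAdjoint.star_eq,
    (cut_proj S hS).isSelfAdjoint.star_eq, ← mul_assoc, ← h1] at h2
  exact h2.symm

/-- The corner condition for elements of `Lat`. -/
lemma Lat_corner {P : Hsq →L[ℂ] Hsq} (hP : P ∈ LatOf (AlgOf volterraTensor)) {n : ℕ}
    {a b : Pn n} (hab : ltP n a b) : P (ub b) = 0 ∨ P (ub a) = ub a := by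
  have h4 : (0 : ℝ) < 4 ^ n := by positivity
  set f := P (ub b) with hf
  set R : Hsq →L[ℂ] Hsq := InnerProductSpace.rankOne ℂ (ub a) f with hR
  have hRapp : ∀ x, R x = inner ℂ f x • ub a := fun x => InnerProductSpace.rankOne_apply _ _ _
  have gen : ∀ (S : Set (ℝ × ℝ)) (hS : MeasurableSet S),
      (cut S hS (ub a) = ub a ∨ cut S hS (ub b) = 0) →
      R * cut S hS = cut S hS * R * cut S hS := by
    intro S hS h
    ext1 x
    show R (cut S hS x) = cut S hS (R (cut S hS x))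
    rw [hRapp, map_smul]
    rcases h with h | h
    · rw [h]
    · have h1 : cut S hS f = 0 := by
        have h2 : cut S hS (P (ub b)) = P (cut S hS (ub b)) :=
          congrArg (fun T : Hsq →L[ℂ] Hsq => T (ub b)) (Lat_comm hP S hS)
        rw [hf, h2, h, map_zero]
      have hsym := ContinuousLinearMap.isSelfAdjoint_iff_isSymmetric.mp
        (cut_proj S hS).isSelfAdjoint
      have h3 : inner ℂ (cut S hS f) x = inner ℂ f (cut S hS x) := hsym _ _
      rw [← h3, h1, inner_zero_left, zero_smul, zero_smul]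
  obtain ⟨hX, hY⟩ := lt_of_ltP n a b hab
  have hRA : R ∈ AlgOf volterraTensor := by
    apply mem_Alg_generated gen_proj gen_comm
    intro Q hQ
    rcases hQ with hQ | hQ
    · obtain ⟨t, _, rfl⟩ := mem_volterraLeft.mp hQ
      apply gen
      rcases le_or_gt (((X n a : ℝ) + 1) / 4 ^ n) t with h | h
      · left; exact cut_ub_self a _ (box_subset_stripX h)
      · right
        apply cut_ub_zero b _ (box_disj_stripX _)
        have h1 : (X n a : ℝ) + 1 ≤ X n b := by exact_mod_cast hX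
        have h2 : ((X n a : ℝ) + 1) / 4 ^ n ≤ (X n b : ℝ) / 4 ^ n := by gcongr
        linarith
    · obtain ⟨t, _, rfl⟩ := mem_volterraRight.mp hQ
      apply gen
      rcases le_or_gt (((Y n a : ℝ) + 1) / 4 ^ n) t with h | h
      · left; exact cut_ub_self a _ (box_subset_stripY h)
      · right
        apply cut_ub_zero b _ (box_disj_stripY _)
        have h1 : (Y n a : ℝ) + 1 ≤ Y n b := by exact_mod_cast hY
        have h2 : ((Y n a : ℝ) + 1) / 4 ^ n ≤ (Y n b : ℝ) / 4 ^ n := by gcongr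
        linarith
  have h1 := hP.2 R hRA
  have h2 : R (P (ub b)) = P (R (P (ub b))) := congrArg (fun T : Hsq →L[ℂ] Hsq => T (ub b)) h1
  rw [← hf, hRapp, map_smul] at h2
  by_cases hf0 : f = 0
  · left; exact hf0
  · right
    have h3 : inner ℂ f f ≠ (0 : ℂ) := inner_self_ne_zero.mpr hf0
    exact ((smul_right_injective Hsq h3) h2).symm

/-- Quantitative form: a test operator with small corners and large distance. -/
lemma test_operator (N : ℕ) (hN : 0 < N) : ∃ T : Hsq →L[ℂ] Hsq,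
    (∀ P ∈ LatOf (AlgOf volterraTensor), ‖(1 - P) * T * P‖ ≤ 332) ∧
    (∀ A ∈ AlgOf volterraTensor, (N : ℝ) / 5 ≤ ‖T - A‖) := by
  refine ⟨TH (fun a : Pn (N ^ 2) => ub a), ?_, ?_⟩
  · intro P hP
    apply upper (ub_orthonormal _) hP.1
    intro a b hab
    exact Lat_corner hP hab
  · intro A hA
    have h := dist_lower hN (ub_orthonormal (N ^ 2)) (A := A)
      (fun a b hab hlt => inner_Alg_zero hA hab hlt)
    linarith

lemma zero_mem_Lat (A : Set (Hsq →L[ℂ] Hsq)) : (0 : Hsq →L[ℂ] Hsq) ∈ LatOf A :=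
  ⟨IsStarProjection.zero _, fun T _ => by simp⟩

lemma zero_mem_Alg (L : Set (Hsq →L[ℂ] Hsq)) : (0 : Hsq →L[ℂ] Hsq) ∈ AlgOf L := by
  intro P _; simp

/-- `Alg (N ⊗ N)` has no distance constant. -/
theorem no_distance_constant : ¬ HasDistanceConstant (AlgOf volterraTensor) := by
  rintro ⟨K, hK⟩
  obtain ⟨N, hN⟩ := exists_nat_gt (5 * 332 * |K|)
  have hNpos : 0 < N := by
    have h1 : (0 : ℝ) ≤ 5 * 332 * |K| := by positivity
    exact_mod_cast lt_of_le_of_lt h1 hN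
  obtain ⟨T, hT1, hT2⟩ := test_operator N hNpos
  have h1 := hK T
  have h2 : (N : ℝ) / 5 ≤ Metric.infDist T (AlgOf volterraTensor) := by
    rw [Metric.le_infDist ⟨0, zero_mem_Alg _⟩]
    intro A hA
    rw [dist_eq_norm]
    exact hT2 A hA
  have h3 : cornerSup (LatOf (AlgOf volterraTensor)) T ≤ 332 := by
    apply csSup_le
    · exact ⟨_, 0, zero_mem_Lat _, rfl⟩
    · rintro r ⟨P, hP, rfl⟩
      exact hT1 P hP
  have h4 : 0 ≤ cornerSup (LatOf (AlgOf volterraTensor)) T := by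
    apply Real.sSup_nonneg
    rintro r ⟨P, hP, rfl⟩
    exact norm_nonneg _
  have h5 : K * cornerSup (LatOf (AlgOf volterraTensor)) T ≤ |K| * 332 := by
    calc _ ≤ |K| * cornerSup (LatOf (AlgOf volterraTensor)) T :=
          mul_le_mul_of_nonneg_right (le_abs_self K) h4
      _ ≤ |K| * 332 := mul_le_mul_of_nonneg_left h3 (abs_nonneg K)
  linarith

end Pool.Agent.Work.MP_79b32e_an
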