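import Mathlib
import Pool.Agent.Work.MP_79b32e_an.Volterra
import Pool.Agent.Work.MP_79b32e_an.Nest

set_option autoImplicit false

open MeasureTheory Pool.Agent.Work.MP_79b32e_an

namespace Pool.Agent.Work.MP_79b32e_an

/-- The main theorem, in the form handed in. -/
theorem noDistanceConstant_final :
    IsCSL volterraTensor ∧ HasWidth 2 volterraTensor ∧
    ¬ HasDistanceConstant (AlgOf volterraTensor) ∧ ExceedsEveryConstant volterraTensor := by
  have hCSL : IsCSL volterraTensor := isCSL_generated gen_proj gen_comm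
  have hsub : volterraTensor ⊆ LatOf (AlgOf volterraTensor) := by
    intro P hP
    exact ⟨hCSL.lattice.proj P hP, fun T hT => hT P hP⟩
  refine ⟨hCSL, hasWidth_two, no_distance_constant, ?_⟩
  intro K
  by_contra hcon
  push Not at hcon
  apply no_distance_constant
  refine ⟨|K|, fun T => (hcon T).trans ?_⟩
  have hbdd : BddAbove {r : ℝ | ∃ P ∈ LatOf (AlgOf volterraTensor), r = ‖(1 - P) * T * P‖} := by
    refine ⟨‖T‖, ?_⟩
    rintro r ⟨P, hP, rfl⟩
    calc ‖(1 - P) * T * P‖ ≤ ‖(1 - P) * T‖ * ‖P‖ := norm_mul_le _ _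
      _ ≤ (‖1 - P‖ * ‖T‖) * ‖P‖ := by
          gcongr
          exact norm_mul_le _ _
      _ ≤ (1 * ‖T‖) * 1 := by
          gcongr
          · exact hP.1.one_sub.norm_le
          · exact hP.1.norm_le
      _ = ‖T‖ := by ring
  have h1 : cornerSup volterraTensor T ≤ cornerSup (LatOf (AlgOf volterraTensor)) T := by
    apply csSup_le_csSup hbdd
    · exact ⟨_, 0, hCSL.lattice.zero_mem, rfl⟩
    · rintro r ⟨P, hP, rfl⟩
      exact ⟨P, hsub hP, rfl⟩
  have h0 : 0 ≤ cornerSup volterraTensor T := by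
    apply Real.sSup_nonneg
    rintro r ⟨P, hP, rfl⟩
    exact norm_nonneg _
  calc K * cornerSup volterraTensor T
      ≤ |K| * cornerSup volterraTensor T :=
        mul_le_mul_of_nonneg_right (le_abs_self K) h0
    _ ≤ _ := mul_le_mul_of_nonneg_left h1 (abs_nonneg K)

end Pool.Agent.Work.MP_79b32e_an
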